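import Mathlib

set_option autoImplicit false

/-! The Heisenberg group of order `q ^ 3` embeds in the alternating group of degree `m ≥ q ^ 3`. -/

namespace Pool.Agent.W5h92.CS

/-- Heisenberg group over `ZMod q` -/
@[ext] structure Hei (q : ℕ) where
  a : ZMod q
  b : ZMod q
  c : ZMod q

namespace Hei

variable {q : ℕ}

instance : Mul (Hei q) := ⟨fun x y => ⟨x.a + y.a, x.b + y.b, x.c + y.c + x.a * y.b⟩⟩
instance : One (Hei q) := ⟨⟨0, 0, 0⟩⟩
instance : Inv (Hei q) := ⟨fun x => ⟨-x.a, -x.b, -x.c + x.a * x.b⟩⟩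

@[simp] theorem mul_a (x y : Hei q) : (x * y).a = x.a + y.a := rfl
@[simp] theorem mul_b (x y : Hei q) : (x * y).b = x.b + y.b := rfl
@[simp] theorem mul_c (x y : Hei q) : (x * y).c = x.c + y.c + x.a * y.b := rfl
@[simp] theorem one_a : (1 : Hei q).a = 0 := rfl
@[simp] theorem one_b : (1 : Hei q).b = 0 := rfl
@[simp] theorem one_c : (1 : Hei q).c = 0 := rfl
@[simp] theorem inv_a (x : Hei q) : (x⁻¹).a = -x.a := rfl
@[simp] theorem inv_b (x : Hei q) : (x⁻¹).b = -x.b := rfl
@[simp] theorem inv_c (x : Hei q) : (x⁻¹).c = -x.c + x.a * x.b := rfl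

instance : Group (Hei q) := Group.ofLeftAxioms
  (fun x y z => by ext <;> simp <;> ring)
  (fun x => by ext <;> simp)
  (fun x => by ext <;> simp)

/-- as a triple -/
def eqv : Hei q ≃ ZMod q × ZMod q × ZMod q where
  toFun x := (x.a, x.b, x.c)
  invFun x := ⟨x.1, x.2.1, x.2.2⟩
  left_inv _ := rfl
  right_inv _ := rfl

instance [NeZero q] : Finite (Hei q) := Finite.of_equiv _ eqv.symm

theorem card [NeZero q] : Nat.card (Hei q) = q ^ 3 := by
  rw [Nat.card_congr eqv, Nat.card_prod, Nat.card_prod, Nat.card_zmod]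
  ring

theorem noncomm (hq : 1 < q) : ∃ x y : Hei q, x * y ≠ y * x := by
  refine ⟨⟨1, 0, 0⟩, ⟨0, 1, 0⟩, fun h => ?_⟩
  have h1 := congrArg Hei.c h
  simp only [mul_c, zero_add, mul_one, mul_zero, add_zero] at h1
  have : Fact (1 < q) := ⟨hq⟩
  exact one_ne_zero h1

end Hei

/-- A homomorphism from a group of order `q ^ 3` to the alternating group. -/
theorem exists_hei (q m : ℕ) (hq : q.Prime) (hq2 : q ≠ 2) (hm : q ^ 3 ≤ m) :
    ∃ j : Hei q →* Equiv.Perm (Fin m), Function.Injective j ∧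
      ∀ x, j x ∈ alternatingGroup (Fin m) := by
  have : NeZero q := ⟨hq.ne_zero⟩
  have hfin : Fintype (Hei q) := Fintype.ofFinite _
  have hc : Fintype.card (Hei q) ≤ Fintype.card (Fin m) := by
    rw [Fintype.card_fin, ← Nat.card_eq_fintype_card, Hei.card]
    exact hm
  obtain ⟨ι⟩ := Function.Embedding.nonempty_of_card_le hc
  refine ⟨(Equiv.Perm.viaEmbeddingHom ι).comp (MulAction.toPermHom (Hei q) (Hei q)), ?_, ?_⟩
  · exact (Equiv.Perm.viaEmbeddingHom_injective ι).comp MulAction.toPerm_injective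
  · intro x
    rw [Equiv.Perm.mem_alternatingGroup]
    set j := (Equiv.Perm.viaEmbeddingHom ι).comp (MulAction.toPermHom (Hei q) (Hei q)) with hj
    have h1 : x ^ (q ^ 3) = 1 := by
      rw [← Hei.card (q := q), Nat.card_eq_fintype_card]
      exact pow_card_eq_one
    have h2 : (Equiv.Perm.sign (j x)) ^ (q ^ 3) = 1 := by
      rw [← map_pow, ← map_pow, h1, map_one, map_one]
    have hodd : Odd (q ^ 3) := (hq.odd_of_ne_two hq2).pow
    rcases Int.units_eq_one_or (Equiv.Perm.sign (j x)) with h | h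
    · exact h
    · rw [h, hodd.neg_one_pow] at h2
      exact absurd h2 (by decide)

end Pool.Agent.W5h92.CS
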