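import Mathlib

set_option autoImplicit false

/-! Finite `q`-groups of matrices of degree less than `q`, in characteristic different from `q`,
are commutative. -/

namespace Pool.Agent.W5h92.CS

open Module
open scoped commutatorElement

theorem exists_eig {K W : Type*} [Field K] [IsAlgClosed K] [AddCommGroup W] [Module K W]
    [FiniteDimensional K W] (C : Module.End K W) (hC : C ≠ 1) (N : ℕ) (hN : (N : K) ≠ 0)
    (hCN : C ^ N = 1) : ∃ (ζ : K) (w : W), w ≠ 0 ∧ C w = ζ • w ∧ ζ ≠ 1 ∧ ζ ^ N = 1 := by
  let W' : Submodule K W := LinearMap.range (C - 1)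
  have hinv : ∀ x ∈ W', C x ∈ W' := by
    rintro _ ⟨u, rfl⟩
    exact ⟨C u, by simp⟩
  have hnt : Nontrivial W' := by
    rw [Submodule.nontrivial_iff_ne_bot]
    intro h
    have := LinearMap.range_eq_bot.1 h
    exact hC (sub_eq_zero.1 this)
  obtain ⟨ζ, hζ⟩ := Module.End.exists_eigenvalue (C.restrict hinv)
  obtain ⟨w, hw⟩ := hζ.exists_hasEigenvector
  have hw0 : (w : W) ≠ 0 := fun h => hw.2 (Subtype.ext h)
  have hCw : C w = ζ • (w : W) := by
    have := hw.apply_eq_smul
    have h2 := congrArg Subtype.val this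
    simpa using h2
  have hpow : ∀ n : ℕ, (C ^ n) (w : W) = ζ ^ n • (w : W) := by
    intro n
    induction n with
    | zero => simp
    | succ n ih => rw [pow_succ', Module.End.mul_apply, ih, map_smul, hCw, smul_smul, pow_succ]
  have hζN : ζ ^ N = 1 := by
    have h1 := hpow N
    rw [hCN, Module.End.one_apply] at h1
    have h2 : (ζ ^ N - 1) • (w : W) = 0 := by rw [sub_smul, one_smul, ← h1, sub_self]
    rcases smul_eq_zero.1 h2 with h | h
    · exact sub_eq_zero.1 h
    · exact absurd h hw0
  refine ⟨ζ, w, hw0, hCw, ?_, hζN⟩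
  rintro rfl
  obtain ⟨u, hu⟩ := w.2
  have hCu : C u = u + (w : W) := by
    rw [← hu]
    simp
  have hpu : ∀ n : ℕ, (C ^ n) u = u + (n : K) • (w : W) := by
    intro n
    induction n with
    | zero => simp
    | succ n ih =>
      rw [pow_succ', Module.End.mul_apply, ih, map_add, map_smul, hCw, hCu]
      push_cast
      rw [add_smul]
      simp only [one_smul]
      abel
  have h1 := hpu N
  rw [hCN, Module.End.one_apply] at h1
  have h2 : (N : K) • (w : W) = 0 := by
    have := h1.symm
    simpa using this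
  rcases smul_eq_zero.1 h2 with h | h
  · exact hN h
  · exact hw0 h

/-- over an algebraically closed field -/
theorem comm_of_small {K W P : Type*} [Field K] [IsAlgClosed K] [AddCommGroup W] [Module K W]
    [FiniteDimensional K W] [Group P] [Finite P] (q : ℕ) [hq : Fact q.Prime] (hP : IsPGroup q P)
    (hqK : (q : K) ≠ 0) (hd : finrank K W < q) (r : P →* Module.End K W)
    (hr : Function.Injective r) (a b : P) : a * b = b * a := by
  by_contra hab
  have hcen : Subgroup.center P ≠ ⊤ := by
    intro h
    have : a ∈ Subgroup.center P := by rw [h]; trivial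
    exact hab ((Subgroup.mem_center_iff.1 this b).symm)
  have hnt : Nontrivial (P ⧸ Subgroup.center P) :=
    (QuotientGroup.nontrivial_iff).2 hcen
  have hPq : IsPGroup q (P ⧸ Subgroup.center P) := hP.to_quotient _
  have hcn : Nontrivial (Subgroup.center (P ⧸ Subgroup.center P)) := hPq.center_nontrivial
  obtain ⟨⟨z, hz⟩, hz1⟩ := exists_ne (1 : Subgroup.center (P ⧸ Subgroup.center P))
  obtain ⟨x, rfl⟩ := QuotientGroup.mk_surjective z
  have hx1 : x ∉ Subgroup.center P := by
    intro h
    apply hz1
    apply Subtype.ext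
    exact (QuotientGroup.eq_one_iff x).2 h
  have hy : ∃ y, x * y ≠ y * x := by
    by_contra hcon
    push Not at hcon
    exact hx1 (Subgroup.mem_center_iff.2 fun g => (hcon g).symm)
  obtain ⟨y, hy⟩ := hy
  have hcc : ⁅x, y⁆ ∈ Subgroup.center P := by
    rw [← QuotientGroup.eq_one_iff]
    have h1 := Subgroup.mem_center_iff.1 hz (y : P ⧸ Subgroup.center P)
    rw [commutatorElement_def]
    rw [QuotientGroup.mk_mul, QuotientGroup.mk_mul, QuotientGroup.mk_mul, QuotientGroup.mk_inv,
      QuotientGroup.mk_inv, ← h1]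
    group
  set c : P := ⁅x, y⁆ with hc
  have hc1 : c ≠ 1 := by
    intro h
    rw [hc, commutatorElement_eq_one_iff_mul_comm] at h
    exact hy h
  obtain ⟨i, hi⟩ := hP c
  have hC : r c ≠ 1 := by
    intro h
    exact hc1 (hr (by rw [h, map_one]))
  have hCN : (r c) ^ (q ^ i) = 1 := by rw [← map_pow, hi, map_one]
  have hN : ((q ^ i : ℕ) : K) ≠ 0 := by
    push_cast
    exact pow_ne_zero _ hqK
  obtain ⟨ζ, w, hw0, hCw, hζ1, hζN⟩ := exists_eig (r c) hC _ hN hCN
  let U : Submodule K W := Module.End.eigenspace (r c) ζ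
  have hwU : w ∈ U := Module.End.mem_eigenspace_iff.2 hCw
  have hUinv : ∀ g : P, ∀ u ∈ U, r g u ∈ U := by
    intro g u hu
    rw [Module.End.mem_eigenspace_iff] at hu ⊢
    rw [← Module.End.mul_apply, ← map_mul, ← Subgroup.mem_center_iff.1 hcc g, map_mul,
      Module.End.mul_apply, hu, map_smul]
  have hmul : ∀ g h : P, ((r g).restrict (hUinv g)) * ((r h).restrict (hUinv h)) =
      (r (g * h)).restrict (hUinv (g * h)) := by
    intro g h
    ext u
    simp
  have hone : (r 1).restrict (hUinv 1) = 1 := by
    ext u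
    simp
  have hdet : ∀ g : P, LinearMap.det ((r g).restrict (hUinv g)) ≠ 0 := by
    intro g h0
    have h1 := hmul g g⁻¹
    have h2 : (r (g * g⁻¹)).restrict (hUinv (g * g⁻¹)) = 1 := by
      ext u
      simp
    rw [h2] at h1
    have h3 := congrArg LinearMap.det h1
    rw [map_mul, map_one, h0, zero_mul] at h3
    exact zero_ne_one h3
  have hxy : x * y = c * (y * x) := by rw [hc, commutatorElement_def]; group
  have hcU : (r c).restrict (hUinv c) = ζ • (1 : Module.End K U) := by
    ext u
    have := Module.End.mem_eigenspace_iff.1 u.2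
    simpa using this
  have e1 : ((r x).restrict (hUinv x)) * ((r y).restrict (hUinv y)) =
      ζ • (((r y).restrict (hUinv y)) * ((r x).restrict (hUinv x))) := by
    have h1 : ((r x).restrict (hUinv x)) * ((r y).restrict (hUinv y)) =
        ((r c).restrict (hUinv c)) * (((r y).restrict (hUinv y)) *
          ((r x).restrict (hUinv x))) := by
      rw [hmul, hmul, hmul]
      ext u
      simp only [LinearMap.coe_restrict_apply]
      rw [hxy]
    rw [h1, hcU, smul_mul_assoc, one_mul]
  have e2 := congrArg LinearMap.det e1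
  rw [LinearMap.det_smul, map_mul, map_mul] at e2
  have e3 : ζ ^ finrank K U = 1 := by
    have hne : LinearMap.det ((r x).restrict (hUinv x)) *
        LinearMap.det ((r y).restrict (hUinv y)) ≠ 0 := mul_ne_zero (hdet x) (hdet y)
    have : (ζ ^ finrank K U - 1) * (LinearMap.det ((r x).restrict (hUinv x)) *
        LinearMap.det ((r y).restrict (hUinv y))) = 0 := by
      linear_combination -e2
    rcases mul_eq_zero.1 this with h | h
    · exact sub_eq_zero.1 h
    · exact absurd h hne
  have hUpos : 0 < finrank K U := by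
    have : Nontrivial U := ⟨⟨w, hwU⟩, 0, fun h => hw0 (congrArg Subtype.val h)⟩
    exact finrank_pos
  have hUlt : finrank K U < q := lt_of_le_of_lt (Submodule.finrank_le U) hd
  have hcop : Nat.Coprime (finrank K U) (q ^ i) := by
    apply Nat.Coprime.pow_right
    exact (Nat.coprime_of_lt_prime hUpos.ne' hUlt hq.out).symm
  have h5 : orderOf ζ ∣ 1 := by
    rw [← hcop]
    exact Nat.dvd_gcd (orderOf_dvd_of_pow_eq_one e3) (orderOf_dvd_of_pow_eq_one hζN)
  exact hζ1 (orderOf_eq_one_iff.1 (Nat.dvd_one.1 h5))

/-- over an arbitrary field -/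
theorem comm_of_small' {k Z P : Type*} [Field k] [AddCommGroup Z] [Module k Z]
    [FiniteDimensional k Z] [Group P] [Finite P] (q : ℕ) [hq : Fact q.Prime] (hP : IsPGroup q P)
    (hqK : (q : k) ≠ 0) (hd : finrank k Z < q) (r : P →* Module.End k Z)
    (hr : Function.Injective r) (a b : P) : a * b = b * a := by
  let bas := Module.finBasis k Z
  let K := AlgebraicClosure k
  let f1 : Module.End k Z →* Matrix (Fin (finrank k Z)) (Fin (finrank k Z)) k :=
    (LinearMap.toMatrixAlgEquiv bas : _ →* _)
  let f2 : Matrix (Fin (finrank k Z)) (Fin (finrank k Z)) k →*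
      Matrix (Fin (finrank k Z)) (Fin (finrank k Z)) K :=
    (algebraMap k K).mapMatrix.toMonoidHom
  let f3 : Matrix (Fin (finrank k Z)) (Fin (finrank k Z)) K →*
      Module.End K (Fin (finrank k Z) → K) :=
    (Matrix.toLinAlgEquiv' (R := K) (n := Fin (finrank k Z))).toMulEquiv.toMonoidHom
  have h1 : Function.Injective f1 := (LinearMap.toMatrixAlgEquiv bas).injective
  have h2 : Function.Injective f2 := by
    intro M N h
    exact Matrix.map_injective (algebraMap k K).injective h
  have h3 : Function.Injective f3 :=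
    (Matrix.toLinAlgEquiv' (R := K) (n := Fin (finrank k Z))).injective
  have hqK' : ((q : ℕ) : K) ≠ 0 := by
    rw [← map_natCast (algebraMap k K)]
    intro h
    exact hqK ((map_eq_zero _).1 h)
  exact comm_of_small (K := K) q hP hqK' (by simpa using hd) (f3.comp (f2.comp (f1.comp r)))
    (h3.comp (h2.comp (h1.comp hr))) a b

end Pool.Agent.W5h92.CS
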