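import Mathlib
import Pool.Agent.W5h92.CS.Lin
import Pool.Agent.W5h92.CS.Heis

set_option autoImplicit false

/-! Quotients `Alt_m` survive in kernels of abelian and low-dimensional linear representations. -/

namespace Pool.Agent.W5h92.CS

open Module
open scoped commutatorElement

theorem comm_step {A : Type*} [Group A] {m : ℕ} (hm : 5 ≤ m) (σ : A →* Equiv.Perm (Fin m))
    (Γ₁ Γ₂ : Subgroup A) (h : ∀ φ ∈ Γ₁, ∀ ψ ∈ Γ₁, ⁅φ, ψ⁆ ∈ Γ₂)
    (h1 : alternatingGroup (Fin m) ≤ Γ₁.map σ) : alternatingGroup (Fin m) ≤ Γ₂.map σ := by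
  have hp : commutator (alternatingGroup (Fin m)) = ⊤ :=
    commutator_alternatingGroup_eq_top (by simpa using hm)
  have h2 : commutator (alternatingGroup (Fin m)) ≤
      (Γ₂.map σ).subgroupOf (alternatingGroup (Fin m)) := by
    rw [commutator_def, Subgroup.commutator_le]
    rintro ⟨a, ha⟩ _ ⟨b, hb⟩ _
    rw [Subgroup.mem_subgroupOf]
    obtain ⟨x, hx, rfl⟩ := h1 ha
    obtain ⟨y, hy, rfl⟩ := h1 hb
    refine ⟨⁅x, y⁆, h x hx y hy, ?_⟩
    rw [map_commutatorElement]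
    rfl
  rw [hp, top_le_iff, Subgroup.subgroupOf_eq_top] at h2
  exact h2

theorem lin_aux {G : Type*} [Group G] {m : ℕ} (hm : 5 ≤ m) (σ : G →* Equiv.Perm (Fin m))
    {k Z : Type*} [Field k] [Finite k] [AddCommGroup Z] [Module k Z] [FiniteDimensional k Z]
    (q : ℕ) (hq : q.Prime) (hq2 : q ≠ 2) (hqk : (q : k) ≠ 0) (hqm : q ^ 3 ≤ m)
    (hd : finrank k Z < q) (r : G →* Module.End k Z)
    (h : alternatingGroup (Fin m) ≤ σ.range) :
    alternatingGroup (Fin m) ≤ r.ker.map σ := by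
  have hsim : IsSimpleGroup (alternatingGroup (Fin m)) :=
    alternatingGroup.isSimpleGroup (by simpa using hm)
  set U : Subgroup (alternatingGroup (Fin m)) :=
    (r.ker.map σ).subgroupOf (alternatingGroup (Fin m)) with hU
  have hUn : U.Normal := by
    constructor
    rintro ⟨u, hu⟩ hu1 ⟨a, ha⟩
    rw [hU, Subgroup.mem_subgroupOf] at hu1 ⊢
    obtain ⟨n, hn, hnu⟩ := hu1
    obtain ⟨g, hg⟩ := h ha
    refine ⟨g * n * g⁻¹, r.normal_ker.conj_mem n hn g, ?_⟩
    rw [map_mul, map_mul, map_inv, hg, hnu]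
    rfl
  rcases hUn.eq_bot_or_eq_top with hb | ht
  swap
  · rwa [hU, Subgroup.subgroupOf_eq_top] at ht
  exfalso
  have hker : ∀ n : G, r n = 1 → σ n ∈ alternatingGroup (Fin m) → σ n = 1 := by
    intro n hn hσ
    have h1 : (⟨σ n, hσ⟩ : alternatingGroup (Fin m)) ∈ U := by
      rw [hU, Subgroup.mem_subgroupOf]
      exact ⟨n, hn, rfl⟩
    rw [hb, Subgroup.mem_bot] at h1
    exact congrArg Subtype.val h1
  obtain ⟨j, hj, hjA⟩ := exists_hei q m hq hq2 hqm
  have : Fact q.Prime := ⟨hq⟩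
  have : NeZero q := ⟨hq.ne_zero⟩
  let r' : G →* (Module.End k Z)ˣ := r.toHomUnits
  have hr' : ∀ g, ((r' g : (Module.End k Z)ˣ) : Module.End k Z) = r g := fun g => rfl
  let GQ : Subgroup G := j.range.comap σ
  let rQ : GQ →* (Module.End k Z)ˣ := r'.comp GQ.subtype
  let σQ : GQ →* j.range := (σ.comp GQ.subtype).codRestrict j.range (fun g => g.2)
  have hσQ : Function.Surjective σQ := by
    rintro ⟨y, x, rfl⟩
    obtain ⟨g, hg⟩ := h (hjA x)
    refine ⟨⟨g, ?_⟩, ?_⟩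
    · change σ g ∈ j.range
      rw [hg]
      exact ⟨x, rfl⟩
    · exact Subtype.ext hg
  have hle : ∀ x : GQ, x ∈ rQ.ker → σQ x = 1 := by
    intro x hx
    apply Subtype.ext
    change σ x = 1
    apply hker
    · have h1 : rQ x = 1 := hx
      have h2 := congrArg Units.val h1
      exact h2
    · obtain ⟨y, hy⟩ := x.2
      rw [← hy]
      exact hjA y
  let σB : (GQ ⧸ rQ.ker) →* j.range := QuotientGroup.lift rQ.ker σQ hle
  have hσB : Function.Surjective σB := by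
    intro y
    obtain ⟨g, hg⟩ := hσQ y
    exact ⟨g, by rw [← hg]; rfl⟩
  have hZ : Finite Z := Module.finite_of_finite k
  have hE : Finite (Module.End k Z) :=
    Finite.of_injective (fun f : Module.End k Z => (f : Z → Z)) DFunLike.coe_injective
  let rB : (GQ ⧸ rQ.ker) →* (Module.End k Z)ˣ := QuotientGroup.kerLift rQ
  have hrB : Function.Injective rB := QuotientGroup.kerLift_injective rQ
  have hEu : Finite (Module.End k Z)ˣ := Finite.of_injective Units.val Units.val_injective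
  have hB : Finite (GQ ⧸ rQ.ker) := Finite.of_injective rB hrB
  let P : Sylow q (GQ ⧸ rQ.ker) := default
  have hQp : IsPGroup q (Hei q) := IsPGroup.of_card (Hei.card (q := q))
  have hjp : IsPGroup q j.range := hQp.of_surjective j.rangeRestrict j.rangeRestrict_surjective
  have htop : (P : Subgroup (GQ ⧸ rQ.ker)).map σB = ⊤ := by
    have h1 := (P.mapSurjective hσB).is_maximal' (hjp.to_subgroup ⊤) le_top
    rw [Sylow.coe_mapSurjective] at h1
    exact h1.symm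
  obtain ⟨x, y, hxy⟩ := Hei.noncomm (q := q) hq.one_lt
  obtain ⟨b1, hb1, hb1x⟩ : j.rangeRestrict x ∈ (P : Subgroup (GQ ⧸ rQ.ker)).map σB := by
    rw [htop]; trivial
  obtain ⟨b2, hb2, hb2x⟩ : j.rangeRestrict y ∈ (P : Subgroup (GQ ⧸ rQ.ker)).map σB := by
    rw [htop]; trivial
  have hc := comm_of_small' (k := k) (Z := Z) (P := P) q P.isPGroup' hqk hd
    ((Units.coeHom _).comp (rB.comp (P : Subgroup (GQ ⧸ rQ.ker)).subtype))
    (Units.val_injective.comp (hrB.comp Subtype.val_injective)) ⟨b1, hb1⟩ ⟨b2, hb2⟩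
  have hc2 : b1 * b2 = b2 * b1 := congrArg Subtype.val hc
  apply hxy
  apply hj
  have h5 := congrArg σB hc2
  rw [map_mul, map_mul, hb1x, hb2x] at h5
  have h6 := congrArg Subtype.val h5
  simpa using h6

/-- The data for the degree `m` of the alternating group: two primes. -/
structure Good (D m : ℕ) : Prop where
  five : 5 ≤ m
  ex : ∃ q₁ q₂ : ℕ, q₁.Prime ∧ q₂.Prime ∧ q₁ ≠ q₂ ∧ q₁ ≠ 2 ∧ q₂ ≠ 2 ∧ D < q₁ ∧ D < q₂ ∧
    q₁ ^ 3 ≤ m ∧ q₂ ^ 3 ≤ m

theorem Good.mono {D m m' : ℕ} (h : Good D m) (hm : m ≤ m') : Good D m' := by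
  obtain ⟨h5, q₁, q₂, a, b, c, d, e, f, g, i, j⟩ := h
  exact ⟨h5.trans hm, q₁, q₂, a, b, c, d, e, f, g, i.trans hm, j.trans hm⟩

theorem exists_good (D : ℕ) : ∃ m, Good D m := by
  obtain ⟨q₁, h1, hp1⟩ := Nat.exists_infinite_primes (D + 3)
  obtain ⟨q₂, h2, hp2⟩ := Nat.exists_infinite_primes (q₁ + 1)
  refine ⟨q₁ ^ 3 + q₂ ^ 3 + 5, by omega, q₁, q₂, hp1, hp2, by omega, by omega, by omega, by omega,
    by omega, by omega, by omega⟩

theorem lin_step {A : Type*} [Group A] {D m : ℕ} (hm : Good D m) (σ : A →* Equiv.Perm (Fin m))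
    {k Z : Type*} [Field k] [Finite k] [AddCommGroup Z] [Module k Z] [FiniteDimensional k Z]
    (hd : finrank k Z ≤ D) (Γ : Subgroup A) (r : Γ →* Module.End k Z)
    (h : alternatingGroup (Fin m) ≤ Γ.map σ) :
    alternatingGroup (Fin m) ≤ (r.ker.map Γ.subtype).map σ := by
  obtain ⟨h5, q₁, q₂, hp1, hp2, hne, h12, h22, hD1, hD2, hm1, hm2⟩ := hm
  have hex : ∃ q : ℕ, q.Prime ∧ q ≠ 2 ∧ (q : k) ≠ 0 ∧ q ^ 3 ≤ m ∧ D < q := by
    by_cases h1 : (q₁ : k) = 0
    · refine ⟨q₂, hp2, h22, ?_, hm2, hD2⟩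
      intro h2
      have hcop : Nat.Coprime q₁ q₂ := (Nat.coprime_primes hp1 hp2).2 hne
      have hdvd1 := (ringChar.spec k q₁).1 h1
      have hdvd2 := (ringChar.spec k q₂).1 h2
      have h3 : ringChar k ∣ 1 := by
        rw [← hcop]
        exact Nat.dvd_gcd hdvd1 hdvd2
      have h4 : ((1 : ℕ) : k) = 0 := (ringChar.spec k 1).2 h3
      rw [Nat.cast_one] at h4
      exact one_ne_zero h4
    · exact ⟨q₁, hp1, h12, h1, hm1, hD1⟩
  obtain ⟨q, hq, hq2, hqk, hqm, hqD⟩ := hex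
  have h1 := lin_aux h5 (σ.comp Γ.subtype) q hq hq2 hqk hqm (lt_of_le_of_lt hd hqD) r (by
    rw [MonoidHom.range_comp, Subgroup.range_subtype]
    exact h)
  rwa [← Subgroup.map_map] at h1

end Pool.Agent.W5h92.CS
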