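import Mathlib
import Pool.Agent.W5h92.CS.Step

set_option autoImplicit false

/-! A quotient `Alt_m` survives in the group of the automorphisms acting trivially on `L / K`, if it
survives for `L / X`, and `X / K` is a one-dimensional vector space with linear action of `L`. -/

namespace Pool.Agent.W5h92.CS

open Module
open scoped commutatorElement

/-- The elements of `A` acting trivially on `L / X`. -/
def Tr {A L : Type*} [Group A] [Group L] (a : A →* MulAut L) (X : Subgroup L) : Subgroup A where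
  carrier := {φ | ∀ l, a φ l * l⁻¹ ∈ X}
  mul_mem' := by
    intro φ ψ h1 h2 l
    have e : a (φ * ψ) l * l⁻¹ = (a φ (a ψ l) * (a ψ l)⁻¹) * (a ψ l * l⁻¹) := by
      rw [map_mul, MulAut.mul_apply]; group
    rw [e]
    exact X.mul_mem (h1 _) (h2 _)
  one_mem' := fun l => by rw [map_one, MulAut.one_apply, mul_inv_cancel]; exact X.one_mem
  inv_mem' := by
    intro φ h l
    have h1 := X.inv_mem (h ((a φ)⁻¹ l))
    rw [MulAut.apply_inv_self, mul_inv_rev, inv_inv] at h1
    rw [map_inv]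
    exact h1

theorem mem_Tr {A L : Type*} [Group A] [Group L] (a : A →* MulAut L) (X : Subgroup L) (φ : A) :
    φ ∈ Tr a X ↔ ∀ l, a φ l * l⁻¹ ∈ X := Iff.rfl

/-- The cocycles of `L` with values in `k`, where `L` acts by `χ`. -/
def Z1 {L k : Type*} [Group L] [Field k] (χ : L →* k) : Submodule k (L → k) where
  carrier := {c | ∀ g h, c (g * h) = c g + χ g * c h}
  add_mem' := by
    intro c d hc hd g h
    simp only [Pi.add_apply]
    rw [hc g h, hd g h]
    ring
  zero_mem' := by intro g h; simp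
  smul_mem' := by
    intro t c hc g h
    simp only [Pi.smul_apply, smul_eq_mul]
    rw [hc g h]
    ring

theorem mem_Z1 {L k : Type*} [Group L] [Field k] (χ : L →* k) (c : L → k) :
    c ∈ Z1 χ ↔ ∀ g h, c (g * h) = c g + χ g * c h := Iff.rfl

theorem Z1_ext {L k : Type*} [Group L] [Field k] (χ : L →* k) (S : Set L)
    (hS : Subgroup.closure S = ⊤) (c : L → k) (hc : c ∈ Z1 χ) (h0 : ∀ s ∈ S, c s = 0) (g : L) :
    c g = 0 := by
  have h1 : c 1 = 0 := by
    have := hc 1 1
    rw [mul_one, map_one, one_mul] at this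
    exact left_eq_add.1 this
  have hg : g ∈ Subgroup.closure S := by rw [hS]; trivial
  induction hg using Subgroup.closure_induction with
  | mem x hx => exact h0 x hx
  | one => exact h1
  | mul x y _ _ hx hy => rw [hc, hx, hy, mul_zero, add_zero]
  | inv x _ hx =>
    have h2 := hc x x⁻¹
    rw [mul_inv_cancel, h1, hx, zero_add] at h2
    have h3 : χ x ≠ 0 := by
      intro h
      have := map_mul χ x x⁻¹
      rw [mul_inv_cancel, map_one, h, zero_mul] at this
      exact one_ne_zero this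
    rcases mul_eq_zero.1 h2.symm with h | h
    · exact absurd h h3
    · exact h

/-- evaluation at the generators -/
def evS {L k : Type*} [Group L] [Field k] (χ : L →* k) (S : Finset L) :
    Z1 χ →ₗ[k] (S → k) where
  toFun c s := c.1 s
  map_add' _ _ := rfl
  map_smul' _ _ := rfl

theorem evS_injective {L k : Type*} [Group L] [Field k] (χ : L →* k) (S : Finset L)
    (hS : Subgroup.closure (S : Set L) = ⊤) : Function.Injective (evS χ S) := by
  rw [← LinearMap.ker_eq_bot, LinearMap.ker_eq_bot']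
  intro c hc
  apply Subtype.ext
  funext g
  exact Z1_ext χ (S : Set L) hS c.1 c.2 (fun s hs => congrFun hc ⟨s, hs⟩) g

theorem coc_step {A L : Type*} [Group A] [Group L] {D m : ℕ} (hm : Good D m)
    (σ : A →* Equiv.Perm (Fin m)) (a : A →* MulAut L) (S : Finset L)
    (hS : Subgroup.closure (S : Set L) = ⊤) (hSD : S.card ≤ D) (X K : Subgroup L)
    {k : Type*} [Field k] [Finite k] (χ : L →* k) (qf : L → k)
    (hX : X.Normal) (hχ : ∀ x ∈ X, χ x = 1)
    (h1 : ∀ x ∈ X, ∀ y ∈ X, qf (x * y) = qf x + qf y)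
    (h2 : ∀ l, ∀ x ∈ X, qf (l * x * l⁻¹) = χ l * qf x)
    (h3 : ∀ x ∈ X, qf x = 0 → x ∈ K)
    (h : alternatingGroup (Fin m) ≤ (Tr a X).map σ) :
    alternatingGroup (Fin m) ≤ (Tr a K).map σ := by
  have hfd : FiniteDimensional k (Z1 χ) := FiniteDimensional.of_injective _ (evS_injective χ S hS)
  have hfr : finrank k (Z1 χ) ≤ D := by
    have := LinearMap.finrank_le_finrank_of_injective (evS_injective χ S hS)
    simp only [Module.finrank_fintype_fun_eq_card, Fintype.card_coe] at this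
    exact this.trans hSD
  have hχinv : ∀ φ ∈ Tr a X, ∀ g, χ (a φ g) = χ g := by
    intro φ hφ g
    have e : a φ g = (a φ g * g⁻¹) * g := by group
    rw [e, map_mul, hχ _ (hφ g), one_mul]
  have hZinv : ∀ φ ∈ Tr a X, ∀ c ∈ Z1 χ, (fun g => c (a φ g)) ∈ Z1 χ := by
    intro φ hφ c hc g h
    change c (a φ (g * h)) = _
    rw [map_mul, hc, hχinv φ hφ]
  let r : Tr a X →* Module.End k (Z1 χ) :=
    { toFun := fun φ =>
        { toFun := fun c => ⟨fun g => c.1 (a (φ⁻¹ : Tr a X).1 g), hZinv _ (φ⁻¹ : Tr a X).2 c.1 c.2⟩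
          map_add' := fun _ _ => rfl
          map_smul' := fun _ _ => rfl }
      map_one' := by
        ext c g
        simp
      map_mul' := by
        intro φ ψ
        ext c g
        simp [MulAut.mul_apply] }
  have hk : r.ker.map (Tr a X).subtype ≤ Tr a X := Subgroup.map_subtype_le _
  have hr : ∀ φ ∈ r.ker.map (Tr a X).subtype, ∀ c ∈ Z1 χ, ∀ g, c (a φ g) = c g := by
    rintro _ ⟨φ, hφ, rfl⟩ c hc g
    have e1 : r φ = 1 := hφ
    have e2 := congrArg (fun f : Module.End k (Z1 χ) => (f ⟨c, hc⟩).1 (a φ.1 g)) e1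
    have e3 : c (a (φ⁻¹ : Tr a X).1 (a φ.1 g)) = c (a φ.1 g) := e2
    have e4 : a (φ⁻¹ : Tr a X).1 (a φ.1 g) = g := by
      rw [Subgroup.coe_inv, map_inv, MulAut.inv_apply_self]
    rw [e4] at e3
    exact e3.symm
  have hZ : ∀ φ ∈ Tr a X, (fun g => qf (a φ g * g⁻¹)) ∈ Z1 χ := by
    intro φ hφ g h
    change qf (a φ (g * h) * (g * h)⁻¹) = qf (a φ g * g⁻¹) + χ g * qf (a φ h * h⁻¹)
    have e : a φ (g * h) * (g * h)⁻¹ = (a φ g * g⁻¹) * (g * (a φ h * h⁻¹) * g⁻¹) := by
      rw [map_mul]; group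
    rw [e, h1 _ (hφ g) _ (hX.conj_mem _ (hφ h) g), h2 _ _ (hφ h)]
  have h5 := lin_step hm σ hfr (Tr a X) r h
  refine comm_step hm.five σ _ _ ?_ h5
  let f : (r.ker.map (Tr a X).subtype : Subgroup A) →* Multiplicative (L → k) :=
    MonoidHom.mk' (fun φ => Multiplicative.ofAdd (fun g => qf (a φ.1 g * g⁻¹))) (by
      rintro ⟨φ, hφ⟩ ⟨ψ, hψ⟩
      apply congrArg Multiplicative.ofAdd
      funext g
      change qf (a (φ * ψ) g * g⁻¹) = qf (a φ g * g⁻¹) + qf (a ψ g * g⁻¹)
      have e : a (φ * ψ) g * g⁻¹ = (a φ (a ψ g) * (a ψ g)⁻¹) * (a ψ g * g⁻¹) := by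
        rw [map_mul, MulAut.mul_apply]; group
      rw [e, h1 _ (hk hφ _) _ (hk hψ _)]
      congr 1
      exact hr ψ hψ _ (hZ φ (hk hφ)) g)
  intro φ hφ ψ hψ g
  have hmem : ⁅φ, ψ⁆ ∈ Tr a X := by
    rw [commutatorElement_def]
    exact mul_mem (mul_mem (mul_mem (hk hφ) (hk hψ)) (inv_mem (hk hφ))) (inv_mem (hk hψ))
  apply h3 _ (hmem g)
  have e1 : f ⁅(⟨φ, hφ⟩ : (r.ker.map (Tr a X).subtype : Subgroup A)), ⟨ψ, hψ⟩⁆ = 1 := by
    rw [map_commutatorElement, commutatorElement_eq_one_iff_mul_comm]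
    exact mul_comm _ _
  have e2 := congrArg (fun u : Multiplicative (L → k) => (Multiplicative.toAdd u : L → k) g) e1
  exact e2

end Pool.Agent.W5h92.CS
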