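import Mathlib
import Pool.Agent.W5h92.CS.Coc

set_option autoImplicit false

/-! Chief factors of finite nilpotent-by-abelian groups are one-dimensional vector spaces. -/

namespace Pool.Agent.W5h92.CS

open Module
open scoped commutatorElement

/-- Minimal normal subgroups of nilpotent-by-abelian groups. -/
theorem min_normal {Q : Type} [Group Q] (c : ℕ)
    (hc : (commutator Q).lowerCentralSeries c = ⊥) (W : Subgroup Q) (hW : W.Normal) (hW0 : W ≠ ⊥)
    (hmin : ∀ U : Subgroup Q, U.Normal → U ≤ W → U = ⊥ ∨ U = W) :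
    ⁅W, commutator Q⁆ = ⊥ ∧ ⁅W, W⁆ = ⊥ := by
  have h1 : ⁅W, commutator Q⁆ = ⊥ := by
    rcases hmin ⁅W, commutator Q⁆ inferInstance (Subgroup.commutator_le_left _ _) with h | h
    · exact h
    · exfalso
      have h2 : ∀ n, W ≤ (commutator Q).lowerCentralSeries n := by
        intro n
        induction n with
        | zero =>
          rw [Subgroup.lowerCentralSeries_zero]
          calc W = ⁅W, commutator Q⁆ := h.symm
            _ ≤ commutator Q := Subgroup.commutator_le_right _ _
        | succ n ih =>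
          rw [Subgroup.lowerCentralSeries_succ]
          calc W = ⁅W, commutator Q⁆ := h.symm
            _ ≤ _ := Subgroup.commutator_mono ih le_rfl
      have h3 := h2 c
      rw [hc] at h3
      exact hW0 (le_bot_iff.1 h3)
  refine ⟨h1, ?_⟩
  rcases hmin ⁅W, W⁆ inferInstance (Subgroup.commutator_le_left _ _) with h | h
  · exact h
  · exfalso
    have h2 : W ≤ commutator Q := by
      calc W = ⁅W, W⁆ := h.symm
        _ ≤ ⁅⊤, ⊤⁆ := Subgroup.commutator_mono le_top le_top
    have h3 : ⁅W, W⁆ ≤ ⁅W, commutator Q⁆ := Subgroup.commutator_mono le_rfl h2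
    rw [h1, h] at h3
    exact hW0 (le_bot_iff.1 h3)

/-- A minimal normal subgroup is a one-dimensional vector space. -/
theorem min_field {Q : Type} [Group Q] [Finite Q] (c : ℕ)
    (hc : (commutator Q).lowerCentralSeries c = ⊥) (W : Subgroup Q) (hW : W.Normal) (hW0 : W ≠ ⊥)
    (hmin : ∀ U : Subgroup Q, U.Normal → U ≤ W → U = ⊥ ∨ U = W) :
    ∃ (k : Type) (_ : Field k) (_ : Finite k) (χ : Q →* k) (f : Q → k),
      (∀ w ∈ W, χ w = 1) ∧ (∀ x ∈ W, ∀ y ∈ W, f (x * y) = f x + f y) ∧
      (∀ l, ∀ x ∈ W, f (l * x * l⁻¹) = χ l * f x) ∧ (∀ x ∈ W, f x = 0 → x = 1) := by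
  obtain ⟨hWM, hWW⟩ := min_normal c hc W hW hW0 hmin
  have hcommW : ∀ a b : W, a * b = b * a := by
    intro a b
    have h1 : ⁅(a : Q), (b : Q)⁆ ∈ ⁅W, W⁆ := Subgroup.commutator_mem_commutator a.2 b.2
    rw [hWW, Subgroup.mem_bot, commutatorElement_eq_one_iff_mul_comm] at h1
    exact Subtype.ext h1
  let _ : CommGroup W := { (inferInstance : Group W) with mul_comm := hcommW }
  let V := Additive W
  let conj : Q →* AddMonoid.End V :=
    { toFun := fun g => MonoidHom.toAdditive (MulAut.conjNormal g : MulAut W).toMonoidHom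
      map_one' := by
        ext w
        rw [map_one]
        rfl
      map_mul' := by
        intro g h
        ext w
        rw [map_mul]
        rfl }
  have hconj : ∀ g (w : W), conj g (Additive.ofMul w) = Additive.ofMul (MulAut.conjNormal g w) :=
    fun g w => rfl
  have hker : commutator Q ≤ conj.ker := by
    intro g hg
    rw [MonoidHom.mem_ker]
    ext w
    change ((MulAut.conjNormal g (Additive.toMul w) : W) : Q) = ((Additive.toMul w : W) : Q)
    rw [MulAut.conjNormal_apply]
    have h1 : ⁅((Additive.toMul w : W) : Q), g⁆ ∈ ⁅W, commutator Q⁆ :=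
      Subgroup.commutator_mem_commutator (Additive.toMul w : W).2 hg
    rw [hWM, Subgroup.mem_bot, commutatorElement_eq_one_iff_mul_comm] at h1
    rw [← h1]
    group
  let ψ : Abelianization Q →* AddMonoid.End V := QuotientGroup.lift (commutator Q) conj hker
  let R := MonoidAlgebra ℤ (Abelianization Q)
  let F : R →ₐ[ℤ] AddMonoid.End V := MonoidAlgebra.lift ℤ _ _ ψ
  let _ : Module R V := Module.compHom V F.toRingHom
  have hsm : ∀ (g : Q) (w : W), (MonoidAlgebra.of ℤ (Abelianization Q) (Abelianization.of g) : R) •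
      (Additive.ofMul w : V) = Additive.ofMul (MulAut.conjNormal g w) := by
    intro g w
    have h1 : F (MonoidAlgebra.of ℤ (Abelianization Q) (Abelianization.of g)) = conj g := by
      change MonoidAlgebra.lift ℤ _ _ ψ _ = _
      rw [MonoidAlgebra.lift_of]
      rfl
    change F (MonoidAlgebra.of ℤ (Abelianization Q) (Abelianization.of g)) (Additive.ofMul w) = _
    rw [h1]
    rfl
  have hsimple : IsSimpleModule R V := by
    rw [isSimpleModule_iff]
    have hntW : Nontrivial W := (Subgroup.nontrivial_iff_ne_bot W).2 hW0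
    have hntV : Nontrivial V := inferInstanceAs (Nontrivial (Additive W))
    have hnt : Nontrivial (Submodule R V) := Submodule.nontrivial_iff R |>.2 hntV
    refine { exists_pair_ne := hnt.exists_pair_ne, eq_bot_or_eq_top := ?_ }
    intro U
    let U' : Subgroup Q :=
      { carrier := {g | ∃ h : g ∈ W, (Additive.ofMul (⟨g, h⟩ : W) : V) ∈ U}
        mul_mem' := by
          rintro a b ⟨ha, ha'⟩ ⟨hb, hb'⟩
          exact ⟨W.mul_mem ha hb, U.add_mem ha' hb'⟩
        one_mem' := ⟨W.one_mem, U.zero_mem⟩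
        inv_mem' := by
          rintro a ⟨ha, ha'⟩
          exact ⟨W.inv_mem ha, U.neg_mem ha'⟩ }
    have hU'n : U'.Normal := by
      constructor
      rintro n ⟨hn, hn'⟩ g
      refine ⟨hW.conj_mem n hn g, ?_⟩
      have h1 := U.smul_mem (MonoidAlgebra.of ℤ (Abelianization Q) (Abelianization.of g) : R) hn'
      rw [hsm] at h1
      exact h1
    rcases hmin U' hU'n (fun g hg => hg.1) with h | h
    · left
      rw [eq_bot_iff]
      intro v hv
      have h1 : ((Additive.toMul v : W) : Q) ∈ U' := ⟨(Additive.toMul v : W).2, hv⟩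
      rw [h, Subgroup.mem_bot] at h1
      rw [Submodule.mem_bot]
      exact Subtype.ext h1
    · right
      rw [eq_top_iff]
      intro v _
      have h1 : ((Additive.toMul v : W) : Q) ∈ U' := by rw [h]; exact (Additive.toMul v : W).2
      exact h1.2
  obtain ⟨I, hI, ⟨e⟩⟩ := isSimpleModule_iff_quot_maximal.1 hsimple
  let _ : Field (R ⧸ I) := Ideal.Quotient.field I
  have hfinW : Finite V := inferInstanceAs (Finite (Additive W))
  have hfin : Finite (R ⧸ I) := Finite.of_equiv _ e.toEquiv
  let χ : Q →* (R ⧸ I) := (Ideal.Quotient.mk I : R →* R ⧸ I).comp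
    ((MonoidAlgebra.of ℤ (Abelianization Q)).comp Abelianization.of)
  have hχ : ∀ (g : Q) (v : V), χ g * e v =
      e ((MonoidAlgebra.of ℤ (Abelianization Q) (Abelianization.of g) : R) • v) := by
    intro g v
    rw [map_smul]
    obtain ⟨s, hs⟩ := Ideal.Quotient.mk_surjective (e v)
    rw [← hs]
    rfl
  classical
  refine ⟨R ⧸ I, inferInstance, hfin, χ,
    fun g => if h : g ∈ W then e (Additive.ofMul (⟨g, h⟩ : W)) else 0, ?_, ?_, ?_, ?_⟩
  · intro w hw
    obtain ⟨v, hv⟩ := e.surjective 1
    have h1 := hχ w v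
    rw [hv, mul_one] at h1
    rw [h1, ← hv]
    congr 1
    have h2 := hsm w (Additive.toMul v)
    rw [ofMul_toMul] at h2
    rw [h2]
    apply Additive.toMul.injective
    apply Subtype.ext
    rw [toMul_ofMul, MulAut.conjNormal_apply]
    have h3 := congrArg Subtype.val (hcommW ⟨w, hw⟩ (Additive.toMul v))
    simp only [Subgroup.coe_mul] at h3
    rw [h3]
    group
  · intro x hx y hy
    simp only
    rw [dif_pos hx, dif_pos hy, dif_pos (W.mul_mem hx hy), ← map_add]
    rfl
  · intro l x hx
    simp only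
    rw [dif_pos hx, dif_pos (hW.conj_mem x hx l), hχ, hsm]
    rfl
  · intro x hx h
    simp only at h
    rw [dif_pos hx] at h
    have h1 := (map_eq_zero_iff e e.injective).1 h
    exact congrArg Subtype.val (Additive.ofMul.injective h1)

/-- A chain step for a normal subgroup of finite index. -/
theorem exists_chief {L : Type} [Group L] (c : ℕ) (K : Subgroup L) (hK : K.Normal)
    (hKf : K.FiniteIndex) (hKt : K ≠ ⊤) (hc : (commutator L).lowerCentralSeries c ≤ K) :
    ∃ X : Subgroup L, X.Normal ∧ K < X ∧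
    ∃ (k : Type) (_ : Field k) (_ : Finite k) (χ : L →* k) (f : L → k),
      (∀ w ∈ X, χ w = 1) ∧ (∀ x ∈ X, ∀ y ∈ X, f (x * y) = f x + f y) ∧
      (∀ l, ∀ x ∈ X, f (l * x * l⁻¹) = χ l * f x) ∧ (∀ x ∈ X, f x = 0 → x ∈ K) := by
  have hfin : Finite (L ⧸ K) := Subgroup.finite_quotient_of_finiteIndex
  have hsub : Finite (Subgroup (L ⧸ K)) := inferInstance
  have hntQ : Nontrivial (L ⧸ K) := QuotientGroup.nontrivial_iff.2 hKt
  obtain ⟨W, hWmin⟩ := Set.Finite.exists_minimal
    (Set.toFinite {W : Subgroup (L ⧸ K) | W.Normal ∧ W ≠ ⊥}) ⟨⊤, inferInstance, top_ne_bot⟩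
  obtain ⟨⟨hWn, hW0⟩, hmin⟩ := hWmin
  have hc' : (commutator (L ⧸ K)).lowerCentralSeries c = ⊥ := by
    have h1 : (commutator L).map (QuotientGroup.mk' K) = commutator (L ⧸ K) := by
      rw [commutator_def, commutator_def, Subgroup.map_commutator, ← MonoidHom.range_eq_map,
        MonoidHom.range_eq_top.2 (QuotientGroup.mk'_surjective K)]
    rw [← h1, ← Subgroup.map_lowerCentralSeries, Subgroup.map_eq_bot_iff,
      QuotientGroup.ker_mk']
    exact hc
  obtain ⟨k, ik, ifin, χ, f, h1, h2, h3, h4⟩ := min_field c hc' W hWn hW0 (by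
    intro U hU hUW
    by_cases h : U = ⊥
    · exact Or.inl h
    · exact Or.inr (le_antisymm hUW (hmin ⟨hU, h⟩ hUW)))
  refine ⟨W.comap (QuotientGroup.mk' K), hWn.comap _, ?_, k, ik, ifin,
    χ.comp (QuotientGroup.mk' K), fun l => f (QuotientGroup.mk' K l), ?_, ?_, ?_, ?_⟩
  · refine lt_of_le_of_ne ?_ ?_
    · intro x hx
      rw [Subgroup.mem_comap, QuotientGroup.mk'_apply, (QuotientGroup.eq_one_iff x).2 hx]
      exact W.one_mem
    · intro h
      apply hW0
      rw [eq_bot_iff]
      intro w hw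
      obtain ⟨x, rfl⟩ := QuotientGroup.mk'_surjective K w
      have h5 : x ∈ W.comap (QuotientGroup.mk' K) := hw
      rw [← h] at h5
      rw [Subgroup.mem_bot, QuotientGroup.mk'_apply]
      exact (QuotientGroup.eq_one_iff x).2 h5
  · intro w hw
    exact h1 _ hw
  · intro x hx y hy
    simp only [map_mul]
    exact h2 _ hx _ hy
  · intro l x hx
    simp only [map_mul, map_inv]
    exact h3 _ _ hx
  · intro x hx h
    have h5 := h4 _ hx h
    exact (QuotientGroup.eq_one_iff x).1 h5

/-- The main induction. -/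
theorem chain {A L : Type} [Group A] [Group L] {D m : ℕ} (hm : Good D m)
    (σ : A →* Equiv.Perm (Fin m)) (a : A →* MulAut L) (S : Finset L)
    (hS : Subgroup.closure (S : Set L) = ⊤) (hSD : S.card ≤ D)
    (hσ : alternatingGroup (Fin m) ≤ σ.range) (c : ℕ) (n : ℕ) :
    ∀ K : Subgroup L, K.Normal → K.FiniteIndex → K.index ≤ n →
      (commutator L).lowerCentralSeries c ≤ K → alternatingGroup (Fin m) ≤ (Tr a K).map σ := by
  induction n with
  | zero =>
    intro K _ hKf h _
    exact absurd (Nat.le_zero.1 h) hKf.index_ne_zero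
  | succ n ih =>
    intro K hK hKf hKn hc
    by_cases hKt : K = ⊤
    · have h1 : Tr a K = ⊤ := by
        rw [eq_top_iff]
        intro φ _ l
        rw [hKt]
        trivial
      rw [h1, ← MonoidHom.range_eq_map]
      exact hσ
    · obtain ⟨X, hX, hKX, k, ik, ifin, χ, f, h1, h2, h3, h4⟩ := exists_chief c K hK hKf hKt hc
      have hXf : X.FiniteIndex := Subgroup.finiteIndex_of_le hKX.le
      have hidx : X.index < K.index := Subgroup.index_strictAnti hKX
      exact coc_step hm σ a S hS hSD X K χ f hX h1 h2 h3 h4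
        (ih X hX hXf (by omega) (hc.trans hKX.le))

end Pool.Agent.W5h92.CS
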