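import Mathlib
import Pool.Agent.W5h92.CS.NA

set_option autoImplicit false

/-! From `L` to `F`: subgroups of small index, and the action on `F / K`. -/

namespace Pool.Agent.W5h92.CS

open Module
open scoped commutatorElement

/-- subgroups of the symmetric group of small index contain the alternating group -/
theorem index_step {m : ℕ} (hm : 5 ≤ m) (N : ℕ) (hmN : N + 3 ≤ m)
    (U : Subgroup (Equiv.Perm (Fin m))) (hU : U.index ≤ N) : alternatingGroup (Fin m) ≤ U := by
  have hsim : IsSimpleGroup (alternatingGroup (Fin m)) :=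
    alternatingGroup.isSimpleGroup (by simpa using hm)
  have hn : (U.normalCore.subgroupOf (alternatingGroup (Fin m))).Normal := inferInstance
  rcases hn.eq_bot_or_eq_top with hb | ht
  · exfalso
    let f : alternatingGroup (Fin m) →* Equiv.Perm (Equiv.Perm (Fin m) ⧸ U) :=
      (MulAction.toPermHom (Equiv.Perm (Fin m)) (Equiv.Perm (Fin m) ⧸ U)).comp
        (alternatingGroup (Fin m)).subtype
    have hf : Function.Injective f := by
      rw [← MonoidHom.ker_eq_bot_iff, ← hb]
      ext x
      rw [Subgroup.mem_subgroupOf, Subgroup.normalCore_eq_ker]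
      rfl
    have h1 : Nat.card (alternatingGroup (Fin m)) ≤ Nat.card (Equiv.Perm (Equiv.Perm (Fin m) ⧸ U)) :=
      Nat.card_le_card_of_injective f hf
    rw [Nat.card_perm, ← Subgroup.index_eq_card] at h1
    have hntm : Nontrivial (Fin m) := Fin.nontrivial_iff_two_le.2 (by omega)
    have h2 := two_mul_nat_card_alternatingGroup (α := Fin m)
    rw [Nat.card_perm, Nat.card_eq_fintype_card (α := Fin m), Fintype.card_fin] at h2
    have h3 : U.index.factorial ≤ N.factorial := Nat.factorial_le hU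
    have h4 : (N + 3).factorial ≤ m.factorial := Nat.factorial_le hmN
    have h5 : (N + 3).factorial = (N + 3) * ((N + 2) * ((N + 1) * N.factorial)) := by
      rw [Nat.factorial_succ, Nat.factorial_succ, Nat.factorial_succ]
    have h6 : 0 < N.factorial := Nat.factorial_pos N
    have h7 : 6 * N.factorial ≤ (N + 3) * ((N + 2) * ((N + 1) * N.factorial)) := by
      have : 6 ≤ (N + 3) * ((N + 2) * (N + 1)) := by
        calc 6 = 3 * (2 * 1) := rfl
          _ ≤ _ := Nat.mul_le_mul (by omega) (Nat.mul_le_mul (by omega) (by omega))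
      calc 6 * N.factorial ≤ ((N + 3) * ((N + 2) * (N + 1))) * N.factorial :=
            Nat.mul_le_mul_right _ this
        _ = _ := by ring
    omega
  · rw [Subgroup.subgroupOf_eq_top] at ht
    exact ht.trans (Subgroup.normalCore_le U)

theorem bmul {A F : Type} [Group A] [Group F] (b : A →* MulAut F) (x y : A) (g : F) :
    b x (b y g) = b (x * y) g := by rw [map_mul, MulAut.mul_apply]

/-- the index of the group of the automorphisms acting trivially on `F / L` -/
theorem index_Tr {A F : Type} [Group A] [Group F] (T : Finset F)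
    (hT : Subgroup.closure (T : Set F) = ⊤) (b : A →* MulAut F) (L : Subgroup F) [L.Normal]
    [L.FiniteIndex] : (Tr b L).index ≠ 0 ∧ (Tr b L).index ≤ L.index ^ T.card := by
  have hfin : Finite (F ⧸ L) := Subgroup.finite_quotient_of_finiteIndex
  have key : ∀ φ ψ : A, φ⁻¹ * ψ ∈ Tr b L ↔
      ∀ t : T, (QuotientGroup.mk' L) (b φ⁻¹ t.1) = (QuotientGroup.mk' L) (b ψ⁻¹ t.1) := by
    intro φ ψ
    have hgen : (∀ t : T, (QuotientGroup.mk' L) (b φ⁻¹ t.1) = (QuotientGroup.mk' L) (b ψ⁻¹ t.1)) ↔
        (QuotientGroup.mk' L).comp (b φ⁻¹).toMonoidHom =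
          (QuotientGroup.mk' L).comp (b ψ⁻¹).toMonoidHom := by
      constructor
      · intro h
        apply MonoidHom.eq_of_eqOn_dense hT
        intro t ht
        exact h ⟨t, ht⟩
      · intro h t
        exact DFunLike.congr_fun h t.1
    rw [hgen, mem_Tr]
    constructor
    · intro h
      ext g
      have h1 := h (b ψ⁻¹ g)
      rw [bmul, mul_assoc, mul_inv_cancel, mul_one] at h1
      change QuotientGroup.mk' L (b φ⁻¹ g) = QuotientGroup.mk' L (b ψ⁻¹ g)
      rw [← mul_inv_eq_one, ← map_inv, ← map_mul]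
      exact (QuotientGroup.eq_one_iff _).2 h1
    · intro h l
      have h1 := DFunLike.congr_fun h (b ψ l)
      change QuotientGroup.mk' L (b φ⁻¹ (b ψ l)) = QuotientGroup.mk' L (b ψ⁻¹ (b ψ l)) at h1
      rw [bmul, bmul, inv_mul_cancel, map_one, MulAut.one_apply,
        ← mul_inv_eq_one, ← map_inv, ← map_mul] at h1
      exact (QuotientGroup.eq_one_iff _).1 h1
  let f : A ⧸ Tr b L → (T → F ⧸ L) := Quotient.lift
    (fun φ t => (QuotientGroup.mk' L) (b φ⁻¹ t.1)) (by
      intro φ ψ h
      funext t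
      exact (key φ ψ).1 (QuotientGroup.leftRel_apply.1 h) t)
  have hf : Function.Injective f := by
    intro x y h
    induction x using QuotientGroup.induction_on with | H φ =>
    induction y using QuotientGroup.induction_on with | H ψ =>
    exact QuotientGroup.eq.2 ((key φ ψ).2 (fun t => congrFun h t))
  have hfinA : Finite (A ⧸ Tr b L) := Finite.of_injective f hf
  refine ⟨?_, ?_⟩
  · rw [Subgroup.index_eq_card]
    exact Nat.card_pos.ne'
  calc (Tr b L).index = Nat.card (A ⧸ Tr b L) := rfl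
    _ ≤ Nat.card (T → F ⧸ L) := Nat.card_le_card_of_injective f hf
    _ = L.index ^ T.card := by
      rw [Nat.card_fun, ← Subgroup.index_eq_card, Nat.card_eq_fintype_card, Fintype.card_coe]

/-- restriction of automorphisms to `L` -/
def resL {A F : Type} [Group A] [Group F] (b : A →* MulAut F) (L : Subgroup F) :
    Tr b L →* MulAut L where
  toFun φ :=
    { toFun := fun l => ⟨b φ.1 l.1, by
        have h := L.mul_mem (φ.2 l.1) l.2
        rwa [inv_mul_cancel_right] at h⟩
      invFun := fun l => ⟨b (φ⁻¹ : Tr b L).1 l.1, by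
        have h := L.mul_mem ((φ⁻¹ : Tr b L).2 l.1) l.2
        rwa [inv_mul_cancel_right] at h⟩
      left_inv := by
        intro l
        apply Subtype.ext
        change b (φ⁻¹ : Tr b L).1 (b φ.1 l.1) = l.1
        rw [Subgroup.coe_inv, map_inv, MulAut.inv_apply_self]
      right_inv := by
        intro l
        apply Subtype.ext
        change b φ.1 (b (φ⁻¹ : Tr b L).1 l.1) = l.1
        rw [Subgroup.coe_inv, map_inv, MulAut.apply_inv_self]
      map_mul' := by
        intro x y
        apply Subtype.ext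
        exact map_mul (b φ.1) _ _ }
  map_one' := by
    ext l
    change b 1 l.1 = l.1
    rw [map_one, MulAut.one_apply]
  map_mul' := by
    intro φ ψ
    ext l
    change b (φ.1 * ψ.1) l.1 = b φ.1 (b ψ.1 l.1)
    rw [map_mul, MulAut.mul_apply]

theorem resL_apply {A F : Type} [Group A] [Group F] (b : A →* MulAut F) (L : Subgroup F)
    (φ : Tr b L) (l : L) : (resL b L φ l : F) = b φ.1 l.1 := rfl

/-- From the action on `L / K` to the action on `F / K`. -/
theorem last_step {A F : Type} [Group A] [Group F] {m : ℕ} (hm : 5 ≤ m)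
    (σ : A →* Equiv.Perm (Fin m)) (b : A →* MulAut F) (L K : Subgroup F) (hL : L.Normal)
    (hK : K.Normal)
    (h : alternatingGroup (Fin m) ≤ ((Tr (resL b L) (K.subgroupOf L)).map (Tr b L).subtype).map σ) :
    alternatingGroup (Fin m) ≤ (Tr b K).map σ := by
  let p := QuotientGroup.mk' K
  have hp : ∀ x, p x = 1 ↔ x ∈ K := fun x => QuotientGroup.eq_one_iff x
  refine comm_step hm σ _ _ ?_ h
  have hmem : ∀ φ ∈ (Tr (resL b L) (K.subgroupOf L)).map (Tr b L).subtype,
      φ ∈ Tr b L ∧ ∀ l ∈ L, p (b φ l) = p l := by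
    rintro _ ⟨φ, hφ, rfl⟩
    refine ⟨φ.2, fun l hl => ?_⟩
    have h1 := hφ ⟨l, hl⟩
    rw [Subgroup.mem_subgroupOf] at h1
    rw [← mul_inv_eq_one, ← map_inv, ← map_mul, hp]
    exact h1
  have hcen : ∀ φ ∈ (Tr (resL b L) (K.subgroupOf L)).map (Tr b L).subtype, ∀ g, ∀ l ∈ L,
      p (b φ g * g⁻¹) * p l = p l * p (b φ g * g⁻¹) := by
    intro φ hφ g l hl
    obtain ⟨-, h2⟩ := hmem φ hφ
    have h3 : g⁻¹ * l * g ∈ L := by
      have := hL.conj_mem l hl g⁻¹
      rwa [inv_inv] at this
    have h4 : p (b φ (g * (g⁻¹ * l * g) * g⁻¹)) = p l := by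
      rw [h2 _ (hL.conj_mem _ h3 g)]
      congr 1
      group
    rw [map_mul, map_mul, map_inv, map_mul, map_mul, map_inv, h2 _ h3] at h4
    rw [mul_inv_eq_iff_eq_mul, map_mul p (g⁻¹ * l) g, map_mul p g⁻¹ l, map_inv] at h4
    rw [map_mul, map_inv]
    calc p (b φ g) * (p g)⁻¹ * p l = p (b φ g) * ((p g)⁻¹ * p l * p g) * (p g)⁻¹ := by group
      _ = p l * p (b φ g) * (p g)⁻¹ := by rw [h4]
      _ = _ := by group
  intro φ hφ ψ hψ
  obtain ⟨a1, a2⟩ := hmem φ hφ
  obtain ⟨c1, c2⟩ := hmem ψ hψ
  have hkey : ∀ g, p (b (φ * ψ) g) = p (b (ψ * φ) g) := by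
    intro g
    have e1 : p (b (φ * ψ) g) = p (b ψ g * g⁻¹) * p (b φ g * g⁻¹) * p g := by
      have e : b (φ * ψ) g = b φ (b ψ g * g⁻¹) * (b φ g * g⁻¹) * g := by
        rw [map_mul, MulAut.mul_apply, map_mul, map_inv]; group
      rw [e, map_mul, map_mul, a2 _ (c1 g)]
    have e2 : p (b (ψ * φ) g) = p (b φ g * g⁻¹) * p (b ψ g * g⁻¹) * p g := by
      have e : b (ψ * φ) g = b ψ (b φ g * g⁻¹) * (b ψ g * g⁻¹) * g := by
        rw [map_mul, MulAut.mul_apply, map_mul, map_inv]; group
      rw [e, map_mul, map_mul, c2 _ (a1 g)]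
    rw [e1, e2, hcen φ hφ g _ (c1 g)]
  intro g
  have h5 := hkey (b (ψ * φ)⁻¹ g)
  rw [bmul, bmul, mul_inv_cancel, map_one, MulAut.one_apply] at h5
  have e : φ * ψ * (ψ * φ)⁻¹ = ⁅φ, ψ⁆ := by
    rw [commutatorElement_def]
    group
  rw [e] at h5
  rw [← hp, map_mul, map_inv, mul_inv_eq_one]
  exact h5

theorem main_abs {A F : Type} [Group A] [Group F] (T : Finset F)
    (hT : Subgroup.closure (T : Set F) = ⊤) {m : ℕ} (b : A →* MulAut F)
    (σ : A →* Equiv.Perm (Fin m)) (hσ : Function.Surjective σ) (j : ℕ)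
    (hm : Good (j * T.card) m) (hmj : j ^ T.card + 3 ≤ m) (K L : Subgroup F) (hK : K.Normal)
    (hL : L.Normal) (hKf : K.FiniteIndex) (hLf : L.FiniteIndex) (hLj : L.index ≤ j) (c : ℕ)
    (hc : ⁅L, L⁆.lowerCentralSeries c ≤ K) :
    alternatingGroup (Fin m) ≤ (Tr b K).map σ := by
  have h1 : alternatingGroup (Fin m) ≤ (Tr b L).map σ := by
    apply index_step hm.five (j ^ T.card) hmj
    obtain ⟨h0, hi⟩ := index_Tr T hT b L
    have hd := Subgroup.index_map_dvd (Tr b L) hσ
    exact (Nat.le_of_dvd (Nat.pos_of_ne_zero h0) hd).trans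
      (hi.trans (Nat.pow_le_pow_left hLj _))
  obtain ⟨S, hS1, hS2⟩ := L.exists_finset_card_le_mul hT
  have hK2n : (K ⊓ L).Normal := inferInstance
  have hK2f : (K ⊓ L).FiniteIndex := inferInstance
  have h2 := chain (L := L) hm (σ.comp (Tr b L).subtype) (resL b L) S hS2
    (hS1.trans (Nat.mul_le_mul_right _ hLj)) (by
      rw [MonoidHom.range_comp, Subgroup.range_subtype]
      exact h1) c ((K ⊓ L).subgroupOf L).index ((K ⊓ L).subgroupOf L) inferInstance inferInstance
      le_rfl (by
        rw [← Subgroup.map_subtype_le_map_subtype, Subgroup.map_lowerCentralSeries,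
          Subgroup.map_subtype_commutator, Subgroup.subgroupOf_map_subtype]
        refine le_inf (le_inf hc ?_) ?_
        · exact (Subgroup.lowerCentralSeries_antitone _ (Nat.zero_le c)).trans
            (Subgroup.commutator_le_left _ _)
        · exact (Subgroup.lowerCentralSeries_antitone _ (Nat.zero_le c)).trans
            (Subgroup.commutator_le_left _ _))
  rw [← Subgroup.map_map] at h2
  have h3 := last_step hm.five σ b L (K ⊓ L) hL hK2n h2
  refine h3.trans (Subgroup.map_mono ?_)
  intro φ hφ g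
  exact (hφ g).1

end Pool.Agent.W5h92.CS
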