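import Mathlib

set_option autoImplicit false

/-! Sanov's theorem and the homomorphism from the congruence subgroup of level two to the free group
of rank two. -/

namespace Pool.Agent.W5h92.CS

open Matrix

abbrev S2 : Type := Matrix.SpecialLinearGroup (Fin 2) ℤ

def sA : S2 := ⟨!![1, 2; 0, 1], by simp [Matrix.det_fin_two]⟩
def sB : S2 := ⟨!![1, 0; 2, 1], by simp [Matrix.det_fin_two]⟩

/-- The Sanov representation. -/
def sig : FreeGroup (Fin 2) →* S2 := FreeGroup.lift ![sA, sB]

def gA : GL (Fin 2) ℚ :=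
  ⟨!![1, 2; 0, 1], !![1, -2; 0, 1],
    by ext i j; fin_cases i <;> fin_cases j <;> norm_num [Matrix.mul_apply, Fin.sum_univ_two],
    by ext i j; fin_cases i <;> fin_cases j <;> norm_num [Matrix.mul_apply, Fin.sum_univ_two]⟩

def gB : GL (Fin 2) ℚ :=
  ⟨!![1, 0; 2, 1], !![1, 0; -2, 1],
    by ext i j; fin_cases i <;> fin_cases j <;> norm_num [Matrix.mul_apply, Fin.sum_univ_two],
    by ext i j; fin_cases i <;> fin_cases j <;> norm_num [Matrix.mul_apply, Fin.sum_univ_two]⟩

def XX : Fin 2 → Set (OnePoint ℚ) :=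
  ![{z | z.elim True (fun t => 1 < t)}, {z | z.elim False (fun t => 0 ≤ t ∧ t ≤ 1)}]

def YY : Fin 2 → Set (OnePoint ℚ) :=
  ![{z | z.elim False (fun t => t ≤ -1)}, {z | z.elim False (fun t => -1 < t ∧ t < 0)}]

open scoped Function Pointwise in
theorem rho_injective : Function.Injective (FreeGroup.lift ![gA, gB]) := by
  apply FreeGroup.injective_lift_of_ping_pong ![gA, gB] XX YY
  · intro i
    fin_cases i
    · exact ⟨OnePoint.infty, by simp [XX]⟩
    · exact ⟨((0 : ℚ) : OnePoint ℚ), by simp [XX]⟩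
  · intro i j hij
    rw [Function.onFun, Set.disjoint_left]
    intro z h1 h2
    induction z using OnePoint.rec <;> fin_cases i <;> fin_cases j <;> simp_all [XX] <;> linarith
  · intro i j hij
    rw [Function.onFun, Set.disjoint_left]
    intro z h1 h2
    induction z using OnePoint.rec <;> fin_cases i <;> fin_cases j <;> simp_all [YY] <;> linarith
  · intro i j
    rw [Set.disjoint_left]
    intro z h1 h2
    induction z using OnePoint.rec <;> fin_cases i <;> fin_cases j <;> simp_all [XX, YY] <;> linarith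
  · intro i
    rw [Set.smul_set_subset_iff]
    intro z hz
    induction z using OnePoint.rec with
    | infty =>
      rw [OnePoint.smul_infty_eq_ite]
      fin_cases i <;> simp_all [XX, YY, gA, gB]
      norm_num
    | coe t =>
      rw [OnePoint.smul_some_eq_ite]
      fin_cases i <;> simp_all [XX, YY, gA, gB]
      · linarith
      · rcases le_or_gt t (-1) with h | h
        · have h1 : 2 * t + 1 < 0 := by linarith
          rw [if_neg h1.ne]
          simp only [OnePoint.elim_some]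
          exact ⟨div_nonneg_of_nonpos (by linarith) h1.le, by rw [div_le_one_of_neg h1]; linarith⟩
        · have h0 := hz h
          have h1 : 0 < 2 * t + 1 := by linarith
          rw [if_neg h1.ne']
          simp only [OnePoint.elim_some]
          exact ⟨div_nonneg h0 h1.le, by rw [div_le_one h1]; linarith⟩
  · intro i
    rw [Set.smul_set_subset_iff]
    intro z hz
    induction z using OnePoint.rec with
    | infty =>
      rw [OnePoint.smul_infty_eq_ite]
      fin_cases i <;> simp_all [XX, YY, gA, gB]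
      norm_num
    | coe t =>
      rw [OnePoint.smul_some_eq_ite]
      fin_cases i <;> simp_all [XX, YY, gA, gB]
      · linarith
      · rcases lt_or_ge t 0 with h | h
        · have h1 : 0 < -(2 * t) + 1 := by linarith
          rw [if_neg h1.ne']
          simp only [OnePoint.elim_some]
          exact ⟨by rw [lt_div_iff₀ h1]; linarith, div_neg_of_neg_of_pos h h1⟩
        · have h0 := hz h
          have h1 : -(2 * t) + 1 < 0 := by linarith
          rw [if_neg h1.ne]
          simp only [OnePoint.elim_some]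
          exact ⟨by rw [lt_div_iff_of_neg h1]; linarith, div_neg_of_pos_of_neg (by linarith) h1⟩

theorem mapGL_entry (g : S2) (j k : Fin 2) :
    ((Matrix.SpecialLinearGroup.mapGL ℚ g : GL (Fin 2) ℚ) : Matrix (Fin 2) (Fin 2) ℚ) j k =
      ((g.1 j k : ℤ) : ℚ) := rfl

theorem sig_injective : Function.Injective sig := by
  have h : (Matrix.SpecialLinearGroup.mapGL ℚ).comp sig = FreeGroup.lift ![gA, gB] := by
    apply FreeGroup.ext_hom
    intro i
    apply Units.ext
    ext j k
    rw [MonoidHom.comp_apply, mapGL_entry]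
    fin_cases i <;> fin_cases j <;> fin_cases k <;>
      simp [sig, sA, sB, gA, gB]
  have h2 := rho_injective
  rw [← h, MonoidHom.coe_comp] at h2
  exact Function.Injective.of_comp h2

/-- build an element of `SL_2(ℤ)` -/
def mk2 (a b c d : ℤ) (h : a * d - b * c = 1) : S2 :=
  ⟨!![a, b; c, d], by rw [Matrix.det_fin_two_of]; exact h⟩

theorem S2_ext {M N : S2} (h1 : M.1 0 0 = N.1 0 0) (h2 : M.1 0 1 = N.1 0 1)
    (h3 : M.1 1 0 = N.1 1 0) (h4 : M.1 1 1 = N.1 1 1) : M = N := by
  apply Subtype.ext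
  ext i j
  fin_cases i <;> fin_cases j <;> assumption

theorem det_eq (M : S2) : M.1 0 0 * M.1 1 1 - M.1 0 1 * M.1 1 0 = 1 := by
  have h := M.2
  rw [Matrix.det_fin_two] at h
  exact h

theorem mul00 (M N : S2) : (M * N).1 0 0 = M.1 0 0 * N.1 0 0 + M.1 0 1 * N.1 1 0 := by
  rw [Matrix.SpecialLinearGroup.coe_mul, Matrix.mul_apply, Fin.sum_univ_two]
theorem mul01 (M N : S2) : (M * N).1 0 1 = M.1 0 0 * N.1 0 1 + M.1 0 1 * N.1 1 1 := by
  rw [Matrix.SpecialLinearGroup.coe_mul, Matrix.mul_apply, Fin.sum_univ_two]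
theorem mul10 (M N : S2) : (M * N).1 1 0 = M.1 1 0 * N.1 0 0 + M.1 1 1 * N.1 1 0 := by
  rw [Matrix.SpecialLinearGroup.coe_mul, Matrix.mul_apply, Fin.sum_univ_two]
theorem mul11 (M N : S2) : (M * N).1 1 1 = M.1 1 0 * N.1 0 1 + M.1 1 1 * N.1 1 1 := by
  rw [Matrix.SpecialLinearGroup.coe_mul, Matrix.mul_apply, Fin.sum_univ_two]

theorem mk2_A (k : ℤ) : mk2 1 (2 * k) 0 1 (by ring) = sA ^ k := by
  let f : Multiplicative ℤ →* S2 :=
    { toFun := fun t => mk2 1 (2 * t.toAdd) 0 1 (by ring)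
      map_one' := by apply S2_ext <;> simp [mk2]
      map_mul' := by
        intro x y
        apply S2_ext
        · rw [mul00]; simp [mk2]
        · rw [mul01]; simp [mk2]; ring
        · rw [mul10]; simp [mk2]
        · rw [mul11]; simp [mk2] }
  have h1 : f (Multiplicative.ofAdd 1) = sA := by
    apply S2_ext <;> simp [f, mk2, sA]
  have h2 := map_zpow f (Multiplicative.ofAdd 1) k
  rw [h1, ← ofAdd_zsmul, smul_eq_mul, mul_one] at h2
  exact h2

/-- powers of the two generators -/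
theorem sA_zpow (k : ℤ) : mk2 1 (2 * k) 0 1 (by ring) ∈ sig.range := by
  rw [mk2_A]
  exact Subgroup.zpow_mem _ (show sA ∈ sig.range from ⟨FreeGroup.of 0, by simp [sig]⟩) k

theorem sB_zpow (k : ℤ) : mk2 1 0 (2 * k) 1 (by ring) ∈ sig.range := by
  have h : mk2 1 0 (2 * k) 1 (by ring) = sB ^ k := by
    let f : Multiplicative ℤ →* S2 :=
      { toFun := fun t => mk2 1 0 (2 * t.toAdd) 1 (by ring)
        map_one' := by apply S2_ext <;> simp [mk2]
        map_mul' := by
          intro x y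
          apply S2_ext
          · rw [mul00]; simp [mk2]
          · rw [mul01]; simp [mk2]
          · rw [mul10]; simp [mk2]; ring
          · rw [mul11]; simp [mk2] }
    have h1 : f (Multiplicative.ofAdd 1) = sB := by
      apply S2_ext <;> simp [f, mk2, sB]
    have h2 := map_zpow f (Multiplicative.ofAdd 1) k
    rw [h1, ← ofAdd_zsmul, smul_eq_mul, mul_one] at h2
    exact h2
  rw [h]
  exact Subgroup.zpow_mem _ (show sB ∈ sig.range from ⟨FreeGroup.of 1, by simp [sig]⟩) k

/-- Euclid -/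
theorem euclid (n : ℕ) : ∀ M : S2, (M.1 0 0).natAbs + (M.1 1 0).natAbs ≤ n →
    4 ∣ M.1 0 0 - 1 → 2 ∣ M.1 0 1 → 2 ∣ M.1 1 0 → M ∈ sig.range := by
  induction n with
  | zero =>
    intro M h h1 _ h3
    exfalso
    have : M.1 0 0 = 0 := by omega
    rw [this] at h1
    omega
  | succ n ih =>
    intro M hn h1 h2 h3
    by_cases hc : M.1 1 0 = 0
    · have hd := det_eq M
      rw [hc, mul_zero, sub_zero] at hd
      have ha : M.1 0 0 = 1 := by
        rcases Int.eq_one_or_neg_one_of_mul_eq_one hd with h | h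
        · exact h
        · rw [h] at h1; omega
      rw [ha, one_mul] at hd
      obtain ⟨k, hk⟩ := h2
      have hM : M = mk2 1 (2 * k) 0 1 (by ring) := by
        apply S2_ext
        · rw [ha]; rfl
        · rw [hk]; rfl
        · rw [hc]; rfl
        · rw [hd]; rfl
      rw [hM]
      exact sA_zpow k
    · -- a = M00 odd, c = M10 even nonzero
      rcases lt_or_ge (M.1 0 0).natAbs (M.1 1 0).natAbs with hlt | hge
      · -- |a| < |c| : replace c by c ∓ 2a
        obtain ⟨e, he1, he2⟩ : ∃ e : ℤ, (e = 1 ∨ e = -1) ∧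
            (M.1 1 0 + 2 * e * M.1 0 0).natAbs < (M.1 1 0).natAbs := by
          by_cases hs : (0 < M.1 0 0 ∧ 0 < M.1 1 0) ∨ (M.1 0 0 < 0 ∧ M.1 1 0 < 0)
          · exact ⟨-1, Or.inr rfl, by rcases hs with hs | hs <;> omega⟩
          · exact ⟨1, Or.inl rfl, by omega⟩
        have hmem := ih (mk2 1 0 (2 * e) 1 (by ring) * M) (by
          rw [mul00, mul10]
          simp only [mk2]
          have e1 : (!![(1:ℤ), 0; 2 * e, 1] 0 0) = 1 := rfl
          have e2 : (!![(1:ℤ), 0; 2 * e, 1] 0 1) = 0 := rfl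
          have e3 : (!![(1:ℤ), 0; 2 * e, 1] 1 0) = 2 * e := rfl
          have e4 : (!![(1:ℤ), 0; 2 * e, 1] 1 1) = 1 := rfl
          rw [e1, e2, e3, e4, one_mul, zero_mul, add_zero, one_mul]
          have : 2 * e * M.1 0 0 + M.1 1 0 = M.1 1 0 + 2 * e * M.1 0 0 := by ring
          rw [this]
          omega) (by
          rw [mul00]
          change 4 ∣ 1 * M.1 0 0 + 0 * M.1 1 0 - 1
          rw [one_mul, zero_mul, add_zero]
          exact h1) (by
          rw [mul01]
          change 2 ∣ 1 * M.1 0 1 + 0 * M.1 1 1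
          rw [one_mul, zero_mul, add_zero]
          exact h2) (by
          rw [mul10]
          change 2 ∣ 2 * e * M.1 0 0 + 1 * M.1 1 0
          rw [one_mul]
          exact dvd_add ⟨e * M.1 0 0, by ring⟩ h3)
        have h5 := Subgroup.mul_mem _ (Subgroup.inv_mem _ (sB_zpow e)) hmem
        rwa [inv_mul_cancel_left] at h5
      · -- |c| ≤ |a| : replace a by a ∓ 2c
        obtain ⟨e, he1, he2⟩ : ∃ e : ℤ, (e = 1 ∨ e = -1) ∧
            (M.1 0 0 + 2 * e * M.1 1 0).natAbs < (M.1 0 0).natAbs := by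
          by_cases hs : (0 < M.1 0 0 ∧ 0 < M.1 1 0) ∨ (M.1 0 0 < 0 ∧ M.1 1 0 < 0)
          · exact ⟨-1, Or.inr rfl, by rcases hs with hs | hs <;> omega⟩
          · exact ⟨1, Or.inl rfl, by omega⟩
        have hmem := ih (mk2 1 (2 * e) 0 1 (by ring) * M) (by
          rw [mul00, mul10]
          change (1 * M.1 0 0 + 2 * e * M.1 1 0).natAbs + (0 * M.1 0 0 + 1 * M.1 1 0).natAbs ≤ n
          rw [one_mul, zero_mul, zero_add, one_mul]
          omega) (by
          rw [mul00]
          change 4 ∣ 1 * M.1 0 0 + 2 * e * M.1 1 0 - 1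
          obtain ⟨u, hu⟩ := h1
          obtain ⟨v, hv⟩ := h3
          rw [hv]
          exact ⟨u + e * v, by linarith⟩) (by
          rw [mul01]
          change 2 ∣ 1 * M.1 0 1 + 2 * e * M.1 1 1
          rw [one_mul]
          exact dvd_add h2 ⟨e * M.1 1 1, by ring⟩) (by
          rw [mul10]
          change 2 ∣ 0 * M.1 0 0 + 1 * M.1 1 0
          rw [one_mul, zero_mul, zero_add]
          exact h3)
        have h5 := Subgroup.mul_mem _ (Subgroup.inv_mem _ (sA_zpow e)) hmem
        rwa [inv_mul_cancel_left] at h5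

/-- The congruence subgroup of level two. -/
def G2 : Subgroup S2 where
  carrier := {M | 2 ∣ M.1 0 1 ∧ 2 ∣ M.1 1 0}
  mul_mem' := by
    rintro M N ⟨h1, h2⟩ ⟨h3, h4⟩
    refine ⟨?_, ?_⟩
    · rw [mul01]
      exact dvd_add (Dvd.dvd.mul_left h3 _) (Dvd.dvd.mul_right h1 _)
    · rw [mul10]
      exact dvd_add (Dvd.dvd.mul_right h2 _) (Dvd.dvd.mul_left h4 _)
  one_mem' := by
    refine ⟨?_, ?_⟩ <;> simp
  inv_mem' := by
    rintro M ⟨h1, h2⟩
    refine ⟨?_, ?_⟩
    · rw [Matrix.SpecialLinearGroup.coe_inv, Matrix.adjugate_fin_two]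
      simpa using h1
    · rw [Matrix.SpecialLinearGroup.coe_inv, Matrix.adjugate_fin_two]
      simpa using h2

theorem neg_entry (M : S2) (i j : Fin 2) : (-M).1 i j = -M.1 i j := by
  rw [Matrix.SpecialLinearGroup.coe_neg]; rfl

theorem G2_cases (M : S2) (hM : M ∈ G2) : 4 ∣ M.1 0 0 - 1 ∨ 4 ∣ (-M).1 0 0 - 1 := by
  obtain ⟨⟨u, hu⟩, ⟨v, hv⟩⟩ := hM
  have hd := det_eq M
  rw [hu, hv] at hd
  have hodd : Odd (M.1 0 0) := by
    rcases Int.even_or_odd (M.1 0 0) with h | h
    · exfalso
      obtain ⟨w, hw⟩ := h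
      rw [hw] at hd
      have : 2 * (w * M.1 1 1 - 2 * (u * v)) = 1 := by linarith
      omega
    · exact h
  rw [neg_entry]
  obtain ⟨w, hw⟩ := hodd
  omega

open Classical in
/-- the representative modulo `{1, -1}` -/
noncomputable def rep (M : S2) : S2 := if 4 ∣ M.1 0 0 - 1 then M else -M

theorem rep_mem (M : S2) (hM : M ∈ G2) : rep M ∈ sig.range := by
  unfold rep
  split_ifs with h
  · exact euclid _ M le_rfl h hM.1 hM.2
  · have h1 := (G2_cases M hM).resolve_left h
    refine euclid _ (-M) le_rfl h1 ?_ ?_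
    · rw [neg_entry]; exact (dvd_neg).2 hM.1
    · rw [neg_entry]; exact (dvd_neg).2 hM.2

theorem rep_mul (M N : S2) (hM : M ∈ G2) (hN : N ∈ G2) : rep (M * N) = rep M * rep N := by
  obtain ⟨h1, h2⟩ := hM
  obtain ⟨h3, h4⟩ := hN
  have hM' := G2_cases M ⟨h1, h2⟩
  have hN' := G2_cases N ⟨h3, h4⟩
  rw [neg_entry] at hM' hN'
  have h5 : 4 ∣ M.1 0 1 * N.1 1 0 := by
    obtain ⟨u, hu⟩ := h1
    obtain ⟨v, hv⟩ := h4
    exact ⟨u * v, by rw [hu, hv]; ring⟩
  unfold rep
  rw [mul00]
  by_cases b : 4 ∣ M.1 0 0 - 1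
  · by_cases c : 4 ∣ N.1 0 0 - 1
    · have a : 4 ∣ M.1 0 0 * N.1 0 0 + M.1 0 1 * N.1 1 0 - 1 := by
        have := dvd_add (dvd_add (Dvd.dvd.mul_right b (N.1 0 0)) c) h5
        have e : (M.1 0 0 - 1) * N.1 0 0 + (N.1 0 0 - 1) + M.1 0 1 * N.1 1 0 =
          M.1 0 0 * N.1 0 0 + M.1 0 1 * N.1 1 0 - 1 := by ring
        rwa [e] at this
      rw [if_pos a, if_pos b, if_pos c]
    · have a : ¬ 4 ∣ M.1 0 0 * N.1 0 0 + M.1 0 1 * N.1 1 0 - 1 := by
        intro a
        apply c
        have := dvd_sub (dvd_sub a h5) (Dvd.dvd.mul_right b (N.1 0 0))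
        have e : M.1 0 0 * N.1 0 0 + M.1 0 1 * N.1 1 0 - 1 - M.1 0 1 * N.1 1 0 -
          (M.1 0 0 - 1) * N.1 0 0 = N.1 0 0 - 1 := by ring
        rwa [e] at this
      rw [if_neg a, if_pos b, if_neg c, mul_neg]
  · by_cases c : 4 ∣ N.1 0 0 - 1
    · have a : ¬ 4 ∣ M.1 0 0 * N.1 0 0 + M.1 0 1 * N.1 1 0 - 1 := by
        intro a
        apply b
        have := dvd_sub (dvd_sub a h5) (Dvd.dvd.mul_left c (M.1 0 0))
        have e : M.1 0 0 * N.1 0 0 + M.1 0 1 * N.1 1 0 - 1 - M.1 0 1 * N.1 1 0 -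
          M.1 0 0 * (N.1 0 0 - 1) = M.1 0 0 - 1 := by ring
        rwa [e] at this
      rw [if_neg a, if_neg b, if_pos c, neg_mul]
    · have a : 4 ∣ M.1 0 0 * N.1 0 0 + M.1 0 1 * N.1 1 0 - 1 := by
        have b' := hM'.resolve_left b
        have c' := hN'.resolve_left c
        have := dvd_sub (dvd_add (Dvd.dvd.mul_right b' (-N.1 0 0)) c') ((dvd_neg).2 h5)
        have e : (-M.1 0 0 - 1) * -N.1 0 0 + (-N.1 0 0 - 1) - -(M.1 0 1 * N.1 1 0) =
          M.1 0 0 * N.1 0 0 + M.1 0 1 * N.1 1 0 - 1 := by ring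
        rwa [e] at this
      rw [if_pos a, if_neg b, if_neg c, neg_mul_neg]

/-- The homomorphism from the congruence subgroup of level two to the free group. -/
noncomputable def toFree : G2 →* FreeGroup (Fin 2) :=
  (MonoidHom.ofInjective sig_injective).symm.toMonoidHom.comp
    (MonoidHom.mk' (fun M : G2 => (⟨rep M.1, rep_mem M.1 M.2⟩ : sig.range)) (by
      intro M N
      apply Subtype.ext
      exact rep_mul M.1 N.1 M.2 N.2))

theorem toFree_sig (M : G2) (w : FreeGroup (Fin 2)) (h : rep M.1 = sig w) : toFree M = w := by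
  change (MonoidHom.ofInjective sig_injective).symm ⟨rep M.1, _⟩ = w
  rw [MulEquiv.symm_apply_eq]
  apply Subtype.ext
  exact h

end Pool.Agent.W5h92.CS
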