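import Mathlib
import Pool.Agent.W5h92.CS.San

set_option autoImplicit false

/-! The Prym representation of order two of a subgroup of finite index of `Aut (F_3)`. -/

namespace Pool.Agent.W5h92.CS

open scoped commutatorElement

abbrev F3 : Type := FreeGroup (Fin 3)

/-- `ℤ² ⋊ {1, -1}` -/
@[ext] structure PP where
  a : ℤ
  b : ℤ
  e : ℤˣ

namespace PP

instance : Mul PP := ⟨fun x y => ⟨x.a + x.e * y.a, x.b + x.e * y.b, x.e * y.e⟩⟩
instance : One PP := ⟨⟨0, 0, 1⟩⟩
instance : Inv PP := ⟨fun x => ⟨-(x.e * x.a), -(x.e * x.b), x.e⟩⟩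

@[simp] theorem mul_a (x y : PP) : (x * y).a = x.a + x.e * y.a := rfl
@[simp] theorem mul_b (x y : PP) : (x * y).b = x.b + x.e * y.b := rfl
@[simp] theorem mul_e (x y : PP) : (x * y).e = x.e * y.e := rfl
@[simp] theorem one_a : (1 : PP).a = 0 := rfl
@[simp] theorem one_b : (1 : PP).b = 0 := rfl
@[simp] theorem one_e : (1 : PP).e = 1 := rfl
@[simp] theorem inv_a (x : PP) : (x⁻¹).a = -(x.e * x.a) := rfl
@[simp] theorem inv_b (x : PP) : (x⁻¹).b = -(x.e * x.b) := rfl
@[simp] theorem inv_e (x : PP) : (x⁻¹).e = x.e := rfl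

theorem ee (e : ℤˣ) : (e : ℤ) * e = 1 := by
  rcases Int.units_eq_one_or e with h | h <;> simp [h]

instance : Group PP := Group.ofLeftAxioms
  (fun x y z => by
    ext
    · simp; ring
    · simp; ring
    · simp [mul_assoc])
  (fun x => by ext <;> simp)
  (fun x => by
    ext
    · simp
    · simp
    · simp)

/-- conjugation of elements of the abelian part -/
theorem conj_even (g x : PP) (hx : x.e = 1) : g * x * g⁻¹ = ⟨g.e * x.a, g.e * x.b, 1⟩ := by
  have h := ee g.e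
  ext
  · simp [hx]
    linear_combination (-g.a) * h
  · simp [hx]
    linear_combination (-g.b) * h
  · simp [hx]

theorem comm_even (x y : PP) (hx : x.e = 1) (hy : y.e = 1) : x * y = y * x := by
  ext
  · simp [hx, hy]; ring
  · simp [hx, hy]; ring
  · simp [hx, hy]

/-- `0` for `1`, `1` for `-1` -/
def dl (e : ℤˣ) : ℤ := if e = 1 then 0 else 1

theorem dl_mul (e f : ℤˣ) : dl (e * f) = dl e + e * dl f := by
  rcases Int.units_eq_one_or e with h | h <;> rcases Int.units_eq_one_or f with h' | h' <;>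
    subst h <;> subst h' <;> simp [dl]

/-- affine endomorphisms -/
def aff (p q r s u w : ℤ) : PP →* PP where
  toFun x := ⟨p * x.a + q * x.b + dl x.e * u, r * x.a + s * x.b + dl x.e * w, x.e⟩
  map_one' := by ext <;> simp [dl]
  map_mul' x y := by
    ext
    · simp only [mul_a, mul_b, mul_e, dl_mul]; ring
    · simp only [mul_a, mul_b, mul_e, dl_mul]; ring
    · simp

/-- parity of the coordinates -/
def par1 : PP →* ℤˣ where
  toFun x := Int.negOnePow x.a
  map_one' := by simp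
  map_mul' x y := by
    rw [mul_a, Int.negOnePow_add]
    congr 1
    rcases Int.units_eq_one_or x.e with h | h <;> simp [h]

def par2 : PP →* ℤˣ where
  toFun x := Int.negOnePow x.b
  map_one' := by simp
  map_mul' x y := by
    rw [mul_b, Int.negOnePow_add]
    congr 1
    rcases Int.units_eq_one_or x.e with h | h <;> simp [h]

def ee' : PP →* ℤˣ where
  toFun x := x.e
  map_one' := rfl
  map_mul' _ _ := rfl

end PP

/-- the homomorphism `F_3 → ℤ² ⋊ {1, -1}` -/
def pr : F3 →* PP := FreeGroup.lift ![⟨1, 0, 1⟩, ⟨0, 1, 1⟩, ⟨0, 0, -1⟩]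

def X0 : F3 := FreeGroup.of 0
def X1 : F3 := FreeGroup.of 1
def X2 : F3 := FreeGroup.of 2

@[simp] theorem pr0 : pr X0 = ⟨1, 0, 1⟩ := by simp [pr, X0]
@[simp] theorem pr1 : pr X1 = ⟨0, 1, 1⟩ := by simp [pr, X1]
@[simp] theorem pr2 : pr X2 = ⟨0, 0, -1⟩ := by simp [pr, X2]

/-- action on the homomorphisms to `{1, -1}` -/
def actH : MulAut F3 →* Equiv.Perm (F3 →* ℤˣ) where
  toFun φ :=
    { toFun := fun ε => ε.comp (φ⁻¹ : MulAut F3).toMonoidHom
      invFun := fun ε => ε.comp φ.toMonoidHom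
      left_inv := by
        intro ε
        ext g
        simp
      right_inv := by
        intro ε
        ext g
        simp }
  map_one' := by
    ext ε g
    simp
  map_mul' φ ψ := by
    ext ε g
    simp

/-- The automorphisms acting trivially on `F / F²`. -/
def A2 : Subgroup (MulAut F3) := actH.ker

theorem mem_A2 (φ : MulAut F3) : φ ∈ A2 ↔ ∀ ε : F3 →* ℤˣ, ∀ g, ε (φ g) = ε g := by
  unfold A2
  rw [MonoidHom.mem_ker]
  constructor
  · intro h ε g
    have h1 := DFunLike.congr_fun (congrArg (fun f : Equiv.Perm (F3 →* ℤˣ) => f ε) h) (φ g)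
    change ε ((φ⁻¹ : MulAut F3) (φ g)) = ε (φ g) at h1
    rw [MulAut.inv_apply_self] at h1
    exact h1.symm
  · intro h
    ext ε : 1
    refine MonoidHom.ext fun g => ?_
    change ε ((φ⁻¹ : MulAut F3) g) = ε g
    rw [← h ε ((φ⁻¹ : MulAut F3) g), MulAut.apply_inv_self]

instance : Finite (F3 →* ℤˣ) := Finite.of_equiv _ (FreeGroup.lift (α := Fin 3) (β := ℤˣ))

instance : A2.FiniteIndex := by
  unfold A2
  infer_instance

/-- The matrix of an automorphism. -/
def TM (φ : MulAut F3) : Matrix (Fin 2) (Fin 2) ℤ :=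
  !![(pr (φ X0)).a, (pr (φ X1)).a; (pr (φ X0)).b, (pr (φ X1)).b]

theorem pr_e (φ : MulAut F3) (hφ : φ ∈ A2) (g : F3) : (pr (φ g)).e = (pr g).e :=
  (mem_A2 φ).1 hφ (PP.ee'.comp pr) g

theorem pr_aff (φ : MulAut F3) (hφ : φ ∈ A2) (g : F3) :
    pr (φ g) = PP.aff (pr (φ X0)).a (pr (φ X1)).a (pr (φ X0)).b (pr (φ X1)).b (pr (φ X2)).a
      (pr (φ X2)).b (pr g) := by
  have h : pr.comp φ.toMonoidHom = (PP.aff (pr (φ X0)).a (pr (φ X1)).a (pr (φ X0)).b
      (pr (φ X1)).b (pr (φ X2)).a (pr (φ X2)).b).comp pr := by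
    apply FreeGroup.ext_hom
    intro i
    have hi := pr_e φ hφ (FreeGroup.of i)
    fin_cases i
    · change pr (φ X0) = PP.aff _ _ _ _ _ _ (pr X0)
      ext
      · simp [PP.aff, PP.dl]
      · simp [PP.aff, PP.dl]
      · rw [pr_e φ hφ]; simp [PP.aff]
    · change pr (φ X1) = PP.aff _ _ _ _ _ _ (pr X1)
      ext
      · simp [PP.aff, PP.dl]
      · simp [PP.aff, PP.dl]
      · rw [pr_e φ hφ]; simp [PP.aff]
    · change pr (φ X2) = PP.aff _ _ _ _ _ _ (pr X2)
      ext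
      · simp [PP.aff, PP.dl]
      · simp [PP.aff, PP.dl]
      · rw [pr_e φ hφ]; simp [PP.aff]
  exact DFunLike.congr_fun h g

theorem TM_mul (φ ψ : MulAut F3) (hφ : φ ∈ A2) (hψ : ψ ∈ A2) : TM (φ * ψ) = TM φ * TM ψ := by
  have e0 : (pr (ψ X0)).e = 1 := by rw [pr_e ψ hψ]; simp
  have e1 : (pr (ψ X1)).e = 1 := by rw [pr_e ψ hψ]; simp
  have h0 := pr_aff φ hφ (ψ X0)
  have h1 := pr_aff φ hφ (ψ X1)
  ext i j
  fin_cases i <;> fin_cases j
  · change (pr (φ (ψ X0))).a = _
    rw [h0]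
    simp [TM, Matrix.mul_apply, Fin.sum_univ_two, PP.aff, PP.dl, e0]
  · change (pr (φ (ψ X1))).a = _
    rw [h1]
    simp [TM, Matrix.mul_apply, Fin.sum_univ_two, PP.aff, PP.dl, e1]
  · change (pr (φ (ψ X0))).b = _
    rw [h0]
    simp [TM, Matrix.mul_apply, Fin.sum_univ_two, PP.aff, PP.dl, e0]
  · change (pr (φ (ψ X1))).b = _
    rw [h1]
    simp [TM, Matrix.mul_apply, Fin.sum_univ_two, PP.aff, PP.dl, e1]

theorem TM_one : TM 1 = 1 := by
  ext i j
  fin_cases i <;> fin_cases j <;> simp [TM]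

/-- as a homomorphism -/
def TMh : A2 →* Matrix (Fin 2) (Fin 2) ℤ where
  toFun φ := TM φ.1
  map_one' := TM_one
  map_mul' φ ψ := TM_mul φ.1 ψ.1 φ.2 ψ.2

/-- determinant -/
def detU : A2 →* ℤˣ := (Matrix.detMonoidHom.comp TMh).toHomUnits

theorem detU_val (φ : A2) : ((detU φ : ℤˣ) : ℤ) = (TM φ.1).det := rfl

/-- The group of the automorphisms acting trivially on `F / F²` with determinant one. -/
def AP : Subgroup A2 := detU.ker

theorem mem_AP (φ : A2) : φ ∈ AP ↔ (TM φ.1).det = 1 := by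
  unfold AP
  rw [MonoidHom.mem_ker, Units.ext_iff, detU_val]
  rfl

instance : AP.FiniteIndex := by
  unfold AP
  infer_instance

theorem even_of (φ : MulAut F3) (hφ : φ ∈ A2) : 2 ∣ (TM φ) 0 1 ∧ 2 ∣ (TM φ) 1 0 := by
  have h1 := (mem_A2 φ).1 hφ (PP.par1.comp pr) X1
  have h2 := (mem_A2 φ).1 hφ (PP.par2.comp pr) X0
  change Int.negOnePow (pr (φ X1)).a = Int.negOnePow (pr X1).a at h1
  change Int.negOnePow (pr (φ X0)).b = Int.negOnePow (pr X0).b at h2
  rw [pr1] at h1
  rw [pr0] at h2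
  simp only [Int.negOnePow_zero] at h1 h2
  rw [Int.negOnePow_eq_one_iff] at h1 h2
  exact ⟨h1.two_dvd, h2.two_dvd⟩

/-- the Prym map to the congruence subgroup of level two -/
def prym : AP →* G2 where
  toFun φ := ⟨⟨TM φ.1.1, (mem_AP φ.1).1 φ.2⟩, even_of φ.1.1 φ.1.2⟩
  map_one' := by
    apply Subtype.ext
    apply Subtype.ext
    exact TM_one
  map_mul' φ ψ := by
    apply Subtype.ext
    apply Subtype.ext
    exact TM_mul φ.1.1 ψ.1.1 φ.1.2 ψ.1.2

end Pool.Agent.W5h92.CS
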