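import Mathlib
import Pool.Agent.W5h92.CS.Prym

set_option autoImplicit false

/-! The map to the symmetric group, its surjectivity, and its kernel. -/

namespace Pool.Agent.W5h92.CS

open scoped commutatorElement

/-- The homomorphism to the symmetric group. -/
noncomputable def sg (n : ℕ) : AP →* Equiv.Perm (Fin (n + 2)) :=
  (FreeGroup.lift ![finRotate (n + 2), Equiv.swap 0 (finRotate (n + 2) 0)]).comp (toFree.comp prym)

/-- `x_i ↦ x_i x_j ^ k` for `i ≠ j` -/
def tv (i j : Fin 3) (hij : i ≠ j) (k : ℤ) : MulAut F3 where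
  toFun := FreeGroup.lift fun l => if l = i then FreeGroup.of i * FreeGroup.of j ^ k
    else FreeGroup.of l
  invFun := FreeGroup.lift fun l => if l = i then FreeGroup.of i * FreeGroup.of j ^ (-k)
    else FreeGroup.of l
  left_inv := by
    intro g
    induction g using FreeGroup.induction_on with
    | C1 => simp
    | of l =>
      by_cases h : l = i
      · subst h
        simp [hij.symm]
      · simp [h]
    | inv_of l h => rw [map_inv, map_inv, h]
    | mul x y hx hy => rw [map_mul, map_mul, hx, hy]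
  right_inv := by
    intro g
    induction g using FreeGroup.induction_on with
    | C1 => simp
    | of l =>
      by_cases h : l = i
      · subst h
        simp [hij.symm]
      · simp [h]
    | inv_of l h => rw [map_inv, map_inv, h]
    | mul x y hx hy => rw [map_mul, map_mul, hx, hy]
  map_mul' := map_mul _

theorem tv_self (i j : Fin 3) (hij : i ≠ j) (k : ℤ) :
    tv i j hij k (FreeGroup.of i) = FreeGroup.of i * FreeGroup.of j ^ k := by
  change FreeGroup.lift (fun l => if l = i then FreeGroup.of i * FreeGroup.of j ^ k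
    else FreeGroup.of l) (FreeGroup.of i) = FreeGroup.of i * FreeGroup.of j ^ k
  simp

theorem tv_ne (i j : Fin 3) (hij : i ≠ j) (k : ℤ) (l : Fin 3) (hl : l ≠ i) :
    tv i j hij k (FreeGroup.of l) = FreeGroup.of l := by
  change FreeGroup.lift (fun l => if l = i then FreeGroup.of i * FreeGroup.of j ^ k
    else FreeGroup.of l) (FreeGroup.of l) = FreeGroup.of l
  simp [hl]

theorem tv_A2 (i j : Fin 3) (hij : i ≠ j) : tv i j hij 2 ∈ A2 := by
  rw [mem_A2]
  intro ε g
  have h : ε.comp (tv i j hij 2).toMonoidHom = ε := by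
    apply FreeGroup.ext_hom
    intro l
    change ε (tv i j hij 2 (FreeGroup.of l)) = _
    by_cases h : l = i
    · subst h
      rw [tv_self, map_mul, map_zpow]
      rcases Int.units_eq_one_or (ε (FreeGroup.of j)) with h | h <;> simp [h]
    · rw [tv_ne _ _ _ _ _ h]
  exact DFunLike.congr_fun h g

theorem TM_A : TM (tv 1 0 (by decide) 2) = sA.1 := by
  have h0 : tv 1 0 (by decide) 2 X0 = X0 := tv_ne _ _ _ _ _ (by decide)
  have h1 : tv 1 0 (by decide) 2 X1 = X1 * (X0 * X0) := by
    rw [← zpow_two]; exact tv_self _ _ _ _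
  ext i j
  fin_cases i <;> fin_cases j <;> simp [TM, h0, h1, sA]

theorem TM_B : TM (tv 0 1 (by decide) 2) = sB.1 := by
  have h1 : tv 0 1 (by decide) 2 X1 = X1 := tv_ne _ _ _ _ _ (by decide)
  have h0 : tv 0 1 (by decide) 2 X0 = X0 * (X1 * X1) := by
    rw [← zpow_two]; exact tv_self _ _ _ _
  ext i j
  fin_cases i <;> fin_cases j <;> simp [TM, h0, h1, sB]

def phA : AP := ⟨⟨tv 1 0 (by decide) 2, tv_A2 _ _ _⟩, by
  rw [mem_AP]
  change (TM (tv 1 0 (by decide) 2)).det = 1
  rw [TM_A]
  exact sA.2⟩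

def phB : AP := ⟨⟨tv 0 1 (by decide) 2, tv_A2 _ _ _⟩, by
  rw [mem_AP]
  change (TM (tv 0 1 (by decide) 2)).det = 1
  rw [TM_B]
  exact sB.2⟩

theorem prym_A : (prym phA).1 = sA := Subtype.ext TM_A
theorem prym_B : (prym phB).1 = sB := Subtype.ext TM_B

theorem toFree_A : toFree (prym phA) = FreeGroup.of 0 := by
  apply toFree_sig
  rw [prym_A]
  have h : rep sA = sA := by
    unfold rep
    rw [if_pos]
    simp [sA]
  rw [h]
  simp [sig]

theorem toFree_B : toFree (prym phB) = FreeGroup.of 1 := by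
  apply toFree_sig
  rw [prym_B]
  have h : rep sB = sB := by
    unfold rep
    rw [if_pos]
    simp [sB]
  rw [h]
  simp [sig]

theorem sg_surjective (n : ℕ) : Function.Surjective (sg n) := by
  rw [← MonoidHom.range_eq_top, eq_top_iff,
    ← Equiv.Perm.closure_cycle_adjacent_swap (σ := finRotate (n + 2)) isCycle_finRotate
      support_finRotate 0, Subgroup.closure_le]
  rintro g (rfl | rfl)
  · refine ⟨phA, ?_⟩
    change FreeGroup.lift _ (toFree (prym phA)) = _
    rw [toFree_A]
    simp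
  · refine ⟨phB, ?_⟩
    change FreeGroup.lift _ (toFree (prym phB)) = _
    rw [toFree_B]
    simp

/-- the subgroup generated by the squares -/
def Sq : Subgroup F3 := Subgroup.closure (Set.range fun x : F3 => x ^ 2)

theorem pr_Sq (s : F3) (hs : s ∈ Sq) : (pr s).e = 1 := by
  have h : Sq ≤ (PP.ee'.comp pr).ker := by
    unfold Sq
    rw [Subgroup.closure_le]
    rintro _ ⟨x, rfl⟩
    rw [SetLike.mem_coe, MonoidHom.mem_ker, map_pow]
    exact Int.units_sq _
  exact h hs

theorem pr_comm (s : F3) (hs : s ∈ ⁅Sq, Sq⁆) : pr s = 1 := by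
  have h : ⁅Sq, Sq⁆ ≤ pr.ker := by
    rw [Subgroup.commutator_le]
    intro g hg k hk
    rw [MonoidHom.mem_ker, map_commutatorElement, commutatorElement_eq_one_iff_mul_comm]
    exact PP.comm_even _ _ (pr_Sq g hg) (pr_Sq k hk)
  exact h hs

theorem eps_comm (ε : F3 →* ℤˣ) (s : F3) (hs : s ∈ ⁅Sq, Sq⁆) : ε s = 1 := by
  have h : ⁅Sq, Sq⁆ ≤ ε.ker := by
    rw [Subgroup.commutator_le]
    intro g hg k hk
    rw [MonoidHom.mem_ker, map_commutatorElement, commutatorElement_eq_one_iff_mul_comm]
    exact mul_comm _ _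
  exact h hs

/-- the inclusion -/
def incl : AP →* MulAut F3 := A2.subtype.comp AP.subtype

theorem incl_injective : Function.Injective incl :=
  Subtype.val_injective.comp Subtype.val_injective

/-- the subgroup of `Aut (F_3)` -/
noncomputable def HH (n : ℕ) : Subgroup (MulAut F3) := (sg n).ker.map incl

instance (n : ℕ) : (HH n).FiniteIndex := by
  have h1 : (sg n).ker.FiniteIndex := inferInstance
  have h2 : HH n = (((sg n).ker.map AP.subtype).map A2.subtype) := by
    unfold HH incl
    rw [Subgroup.map_map]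
  rw [h2]
  constructor
  rw [Subgroup.index_map_subtype, Subgroup.index_map_subtype]
  exact mul_ne_zero (mul_ne_zero h1.index_ne_zero (Subgroup.FiniteIndex.index_ne_zero))
    (Subgroup.FiniteIndex.index_ne_zero)

theorem inner_mem (n : ℕ) (φ : MulAut F3) (g : F3)
    (h : ∀ x, φ x * (g * x * g⁻¹)⁻¹ ∈ ⁅Sq, Sq⁆) : φ ∈ HH n := by
  have hA2 : φ ∈ A2 := by
    rw [mem_A2]
    intro ε x
    have h1 := eps_comm ε _ (h x)
    rw [map_mul, map_inv, mul_inv_eq_one] at h1
    rw [h1, map_mul, map_mul, map_inv, mul_comm (ε g), mul_inv_cancel_right]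
  have hpr : ∀ x, pr (φ x) = pr g * pr x * (pr g)⁻¹ := by
    intro x
    have h1 := pr_comm _ (h x)
    rw [map_mul, map_inv, mul_inv_eq_one] at h1
    rw [h1, map_mul, map_mul, map_inv]
  have h0 := hpr X0
  have h1 := hpr X1
  rw [PP.conj_even _ _ (by simp)] at h0 h1
  rw [pr0] at h0
  rw [pr1] at h1
  have hTM : TM φ = !![((pr g).e : ℤ), 0; 0, ((pr g).e : ℤ)] := by
    ext i j
    fin_cases i <;> fin_cases j <;> simp [TM, h0, h1]
  have hAP : (⟨φ, hA2⟩ : A2) ∈ AP := by
    rw [mem_AP]
    change (TM φ).det = 1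
    rw [hTM, Matrix.det_fin_two_of, PP.ee]
    ring
  refine ⟨⟨⟨φ, hA2⟩, hAP⟩, ?_, rfl⟩
  rw [SetLike.mem_coe, MonoidHom.mem_ker]
  change FreeGroup.lift _ (toFree (prym _)) = 1
  rw [toFree_sig _ 1, map_one]
  rw [map_one]
  have hM : ∀ i j, (prym ⟨⟨φ, hA2⟩, hAP⟩).1.1 i j =
      !![((pr g).e : ℤ), 0; 0, ((pr g).e : ℤ)] i j := by
    intro i j
    rw [← hTM]
    rfl
  unfold rep
  rcases Int.units_eq_one_or (pr g).e with he | he
  · rw [if_pos]
    · apply S2_ext <;> rw [hM] <;> simp [he]
    · rw [hM]; simp [he]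
  · rw [if_neg]
    · apply S2_ext <;> rw [neg_entry, hM] <;> simp [he]
    · rw [hM]; simp [he]

end Pool.Agent.W5h92.CS
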