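import Mathlib
import Pool.Agent.W5h92.CS.Sur
import Pool.Agent.W5h92.CS.Idx

set_option autoImplicit false

/-! Characteristic subgroups whose quotient has no dihedral section, and intersections. -/

namespace Pool.Agent.W5h92.CS

open scoped commutatorElement

/-- The inclusion of the free group generated by `x_0` and `x_2`. -/
def io : FreeGroup (Fin 2) →* F3 := FreeGroup.lift ![X0, X2]

def eh (w : FreeGroup (Fin 2)) : F3 →* F3 := FreeGroup.lift ![X0, X1 * io w, X2]

theorem eh_0 (w : FreeGroup (Fin 2)) : eh w X0 = X0 := by simp [eh, X0]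
theorem eh_1 (w : FreeGroup (Fin 2)) : eh w X1 = X1 * io w := by simp [eh, X1]
theorem eh_2 (w : FreeGroup (Fin 2)) : eh w X2 = X2 := by simp [eh, X2]

theorem eh_io (w v : FreeGroup (Fin 2)) : eh w (io v) = io v := by
  have h : (eh w).comp io = io := by
    apply FreeGroup.ext_hom
    intro i
    fin_cases i
    · change eh w (io (FreeGroup.of 0)) = io (FreeGroup.of 0)
      have : io (FreeGroup.of 0) = X0 := by simp [io]
      rw [this, eh_0]
    · change eh w (io (FreeGroup.of 1)) = io (FreeGroup.of 1)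
      have : io (FreeGroup.of 1) = X2 := by simp [io]
      rw [this, eh_2]
  exact DFunLike.congr_fun h v

theorem eh_comp (w v : FreeGroup (Fin 2)) (g : F3) : eh w (eh v g) = eh (w * v) g := by
  have h : (eh w).comp (eh v) = eh (w * v) := by
    apply FreeGroup.ext_hom
    intro i
    fin_cases i
    · change eh w (eh v X0) = eh (w * v) X0
      rw [eh_0, eh_0, eh_0]
    · change eh w (eh v X1) = eh (w * v) X1
      rw [eh_1, map_mul, eh_1, eh_io, eh_1, map_mul, mul_assoc]
    · change eh w (eh v X2) = eh (w * v) X2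
      rw [eh_2, eh_2, eh_2]
  exact DFunLike.congr_fun h g

theorem eh_one (g : F3) : eh 1 g = g := by
  have h : eh 1 = MonoidHom.id F3 := by
    apply FreeGroup.ext_hom
    intro i
    fin_cases i
    · exact eh_0 1
    · change eh 1 X1 = X1
      rw [eh_1, map_one, mul_one]
    · exact eh_2 1
  exact DFunLike.congr_fun h g

/-- `x_1 ↦ x_1 w(x_0, x_2)` -/
def ew (w : FreeGroup (Fin 2)) : MulAut F3 where
  toFun := eh w
  invFun := eh w⁻¹
  left_inv g := by rw [eh_comp, inv_mul_cancel, eh_one]
  right_inv g := by rw [eh_comp, mul_inv_cancel, eh_one]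
  map_mul' := map_mul _

theorem ew_apply (w : FreeGroup (Fin 2)) (g : F3) : ew w g = eh w g := rfl

theorem ew_A2 (w : FreeGroup (Fin 2)) (hw : ∀ ε : F3 →* ℤˣ, ε (io w) = 1) : ew w ∈ A2 := by
  rw [mem_A2]
  intro ε g
  have h : ε.comp (eh w) = ε := by
    apply FreeGroup.ext_hom
    intro i
    fin_cases i
    · change ε (eh w X0) = ε X0
      rw [eh_0]
    · change ε (eh w X1) = ε X1
      rw [eh_1, map_mul, hw, mul_one]
    · change ε (eh w X2) = ε X2
      rw [eh_2]
  exact DFunLike.congr_fun h g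

theorem ew_TM (w : FreeGroup (Fin 2)) (k : ℤ) (hk : pr (io w) = ⟨2 * k, 0, 1⟩) :
    TM (ew w) = (mk2 1 (2 * k) 0 1 (by ring)).1 := by
  have h0 : ew w X0 = X0 := eh_0 w
  have h1 : ew w X1 = X1 * io w := eh_1 w
  ext i j
  fin_cases i <;> fin_cases j <;> simp [TM, h0, h1, mk2, hk]

/-- the image in the symmetric group -/
theorem sg_ew (n : ℕ) (w : FreeGroup (Fin 2)) (hw : ∀ ε : F3 →* ℤˣ, ε (io w) = 1) (k : ℤ)
    (hk : pr (io w) = ⟨2 * k, 0, 1⟩) :
    ∃ φ : AP, incl φ = ew w ∧ sg n φ = finRotate (n + 2) ^ k := by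
  have hAP : (⟨ew w, ew_A2 w hw⟩ : A2) ∈ AP := by
    rw [mem_AP]
    change (TM (ew w)).det = 1
    rw [ew_TM w k hk]
    exact (mk2 1 (2 * k) 0 1 _).2
  refine ⟨⟨⟨ew w, ew_A2 w hw⟩, hAP⟩, rfl, ?_⟩
  change FreeGroup.lift _ (toFree (prym _)) = _
  rw [toFree_sig _ (FreeGroup.of 0 ^ k), map_zpow]
  · simp
  · have h1 : (prym ⟨⟨ew w, ew_A2 w hw⟩, hAP⟩).1 = mk2 1 (2 * k) 0 1 (by ring) :=
      Subtype.ext (ew_TM w k hk)
    rw [h1, map_zpow]
    have h2 : rep (mk2 1 (2 * k) 0 1 (by ring)) = mk2 1 (2 * k) 0 1 (by ring) := by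
      unfold rep
      rw [if_pos]
      change (4 : ℤ) ∣ 1 - 1
      simp
    rw [h2, mk2_A]
    simp [sig]

/-- The map to the dihedral group. -/
def fd (t : ℕ) : PP →* DihedralGroup t where
  toFun x := if x.e = 1 then DihedralGroup.r (x.a : ZMod t) else DihedralGroup.sr (-(x.a : ZMod t))
  map_one' := by
    rw [PP.one_e, if_pos rfl, PP.one_a, Int.cast_zero]
    rfl
  map_mul' x y := by
    rcases Int.units_eq_one_or x.e with h | h <;> rcases Int.units_eq_one_or y.e with h' | h' <;>
      simp [h, h'] <;> ring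

theorem pr_io_b (w : FreeGroup (Fin 2)) : (pr (io w)).b = 0 := by
  induction w using FreeGroup.induction_on with
  | C1 => simp
  | of i =>
    fin_cases i
    · have : io (FreeGroup.of 0) = X0 := by simp [io]
      change (pr (io (FreeGroup.of 0))).b = 0
      rw [this]; simp
    · have : io (FreeGroup.of 1) = X2 := by simp [io]
      change (pr (io (FreeGroup.of 1))).b = 0
      rw [this]; simp
  | inv_of i h => rw [map_inv, map_inv, PP.inv_b, h]; simp
  | mul x y hx hy => rw [map_mul, map_mul, PP.mul_b, hx, hy]; simp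

/-- `G / X` has a section (a quotient of a subgroup) isomorphic to the dihedral group of order
`2 t`: a subgroup `R` of `G` has a homomorphism onto it which is trivial on `R ∩ X`. -/
def DihedralSection {G : Type} [Group G] (X : Subgroup G) (t : ℕ) : Prop :=
  ∃ (R : Subgroup G) (f : R →* DihedralGroup t), Function.Surjective f ∧
    ∀ r : R, (r : G) ∈ X → f r = 1

theorem exists_w (X : Subgroup F3) (t : ℕ) (h : ¬ DihedralSection X t) :
    ∃ w, io w ∈ X ∧ fd t (pr (io w)) ≠ 1 := by
  by_contra hcon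
  push Not at hcon
  apply h
  let d : FreeGroup (Fin 2) →* DihedralGroup t := (fd t).comp (pr.comp io)
  have hd : Function.Surjective d := by
    rw [← MonoidHom.range_eq_top, eq_top_iff]
    have h0 : DihedralGroup.r 1 ∈ d.range := by
      refine ⟨FreeGroup.of 0, ?_⟩
      change fd t (pr (io (FreeGroup.of 0))) = _
      have : io (FreeGroup.of 0) = X0 := by simp [io]
      rw [this, pr0]
      simp [fd]
    have h1 : DihedralGroup.sr 0 ∈ d.range := by
      refine ⟨FreeGroup.of 1, ?_⟩
      change fd t (pr (io (FreeGroup.of 1))) = _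
      have : io (FreeGroup.of 1) = X2 := by simp [io]
      rw [this, pr2]
      simp [fd]
    have h2 : ∀ i : ZMod t, DihedralGroup.r i ∈ d.range := by
      intro i
      obtain ⟨z, rfl⟩ := ZMod.intCast_surjective i
      have h3 := Subgroup.zpow_mem _ h0 z
      rwa [DihedralGroup.r_one_zpow] at h3
    rintro (i | i) _
    · exact h2 i
    · have h3 := Subgroup.mul_mem _ h1 (h2 i)
      rwa [DihedralGroup.sr_mul_r, zero_add] at h3
  refine ⟨io.range, ((fd t).comp pr).comp io.range.subtype, ?_, ?_⟩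
  · intro y
    obtain ⟨w, hw⟩ := hd y
    exact ⟨⟨io w, w, rfl⟩, hw⟩
  · rintro ⟨_, w, rfl⟩ hw
    exact hcon w hw

/-- a word with a translation as image -/
theorem exists_w' (X : Subgroup F3) [hX : X.Normal] (t : ℕ) (h : ¬ DihedralSection X t) (m : ℕ)
    (hm : 2 ≤ m) (htm : t ∣ m) : ∃ (w : FreeGroup (Fin 2)) (k : ℤ), io w ∈ X ∧
      (∀ ε : F3 →* ℤˣ, ε (io w) = 1) ∧ pr (io w) = ⟨2 * k, 0, 1⟩ ∧ ¬ (m : ℤ) ∣ k := by
  obtain ⟨w, hwX, hw⟩ := exists_w X t h
  have hb := pr_io_b w
  rcases Int.units_eq_one_or (pr (io w)).e with he | he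
  · refine ⟨w * w, (pr (io w)).a, ?_, ?_, ?_, ?_⟩
    · rw [map_mul]; exact X.mul_mem hwX hwX
    · intro ε
      rw [map_mul, map_mul]
      exact Int.units_mul_self _
    · rw [map_mul, map_mul]
      ext
      · simp [he]; ring
      · simp [hb]
      · simp [he]
    · intro hdvd
      apply hw
      have h1 : (t : ℤ) ∣ (pr (io w)).a := (Int.natCast_dvd_natCast.2 htm).trans hdvd
      have h2 : (((pr (io w)).a : ℤ) : ZMod t) = 0 := (ZMod.intCast_zmod_eq_zero_iff_dvd _ _).2 h1
      change (if (pr (io w)).e = 1 then DihedralGroup.r ((pr (io w)).a : ZMod t)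
        else DihedralGroup.sr (-((pr (io w)).a : ZMod t))) = 1
      rw [if_pos he, h2]
      rfl
  · refine ⟨⁅(FreeGroup.of 0 : FreeGroup (Fin 2)), w⁆, 1, ?_, ?_, ?_, ?_⟩
    · rw [commutatorElement_def, map_mul, map_mul, map_mul]
      have h2 := hX.conj_mem _ hwX (io (FreeGroup.of 0))
      rw [← map_inv] at h2
      exact X.mul_mem h2 (by rw [map_inv]; exact X.inv_mem hwX)
    · intro ε
      rw [map_commutatorElement, map_commutatorElement, commutatorElement_eq_one_iff_mul_comm]
      exact mul_comm _ _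
    · rw [map_commutatorElement, map_commutatorElement]
      have : io (FreeGroup.of 0) = X0 := by simp [io]
      rw [this, pr0, commutatorElement_def]
      ext
      · simp [he]; ring
      · simp [hb]
      · simp [he]
    · intro h1
      have := Int.le_of_dvd one_pos h1
      omega

/-- `Tr` of a characteristic subgroup is normal. -/
theorem Tr_normal (X : Subgroup F3) (hX : X.Characteristic) : (Tr incl X).Normal := by
  constructor
  intro φ hφ θ g
  have h1 := hφ (incl θ⁻¹ g)
  have h2 : incl θ (incl φ (incl θ⁻¹ g) * (incl θ⁻¹ g)⁻¹) ∈ X := by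
    have h3 := hX.fixed (incl θ)
    rw [← h3] at h1
    exact h1
  rw [map_mul (incl θ), map_inv (incl θ), bmul, bmul, bmul, mul_inv_cancel, map_one incl,
    MulAut.one_apply] at h2
  exact h2

theorem Tr_inf (X Y : Subgroup F3) : Tr incl (X ⊓ Y) = Tr incl X ⊓ Tr incl Y := by
  ext φ
  constructor
  · intro h
    exact ⟨fun g => (h g).1, fun g => (h g).2⟩
  · rintro ⟨h1, h2⟩ g
    exact ⟨h1 g, h2 g⟩

/-- nontrivial normal subgroups of the symmetric group -/
theorem alt_le {m : ℕ} (hm : 5 ≤ m) (N : Subgroup (Equiv.Perm (Fin m))) (hN : N.Normal)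
    (hN1 : N ≠ ⊥) : alternatingGroup (Fin m) ≤ N := by
  have hsim : IsSimpleGroup (alternatingGroup (Fin m)) :=
    alternatingGroup.isSimpleGroup (by simpa using hm)
  have hn : (N.subgroupOf (alternatingGroup (Fin m))).Normal := inferInstance
  rcases hn.eq_bot_or_eq_top with hb | ht
  · exfalso
    obtain ⟨⟨a, haN⟩, ha1⟩ := (Subgroup.ne_bot_iff_exists_ne_one).1 hN1
    have ha : a ≠ 1 := fun h => ha1 (Subtype.ext h)
    have hcomm : ∀ g ∈ alternatingGroup (Fin m), a * g = g * a := by
      intro g hg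
      have h1 : ⁅a, g⁆ ∈ N := by
        rw [commutatorElement_def, mul_assoc, mul_assoc, ← mul_assoc g]
        exact N.mul_mem haN (hN.conj_mem _ (N.inv_mem haN) g)
      have h2 : ⁅a, g⁆ ∈ alternatingGroup (Fin m) := by
        rw [Equiv.Perm.mem_alternatingGroup, map_commutatorElement,
          commutatorElement_eq_one_iff_mul_comm]
        exact mul_comm _ _
      have h3 : (⟨⁅a, g⁆, h2⟩ : alternatingGroup (Fin m)) ∈
          N.subgroupOf (alternatingGroup (Fin m)) := h1
      rw [hb, Subgroup.mem_bot] at h3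
      exact commutatorElement_eq_one_iff_mul_comm.1 (congrArg Subtype.val h3)
    obtain ⟨i, hi⟩ : ∃ i, a i ≠ i := by
      by_contra hcon
      push Not at hcon
      exact ha (Equiv.ext hcon)
    have hex : ∃ k l : Fin m, k ≠ i ∧ k ≠ a i ∧ l ≠ i ∧ l ≠ a i ∧ l ≠ k := by
      have h1 : ∃ k, k ∉ ({i, a i} : Finset (Fin m)) := by
        by_contra hcon
        push Not at hcon
        have := Finset.card_le_card (show (Finset.univ : Finset (Fin m)) ⊆ {i, a i} from
          fun x _ => hcon x)
        have h2 := Finset.card_le_two (a := i) (b := a i)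
        rw [Finset.card_univ, Fintype.card_fin] at this
        omega
      obtain ⟨k, hk⟩ := h1
      have h2 : ∃ l, l ∉ ({i, a i, k} : Finset (Fin m)) := by
        by_contra hcon
        push Not at hcon
        have := Finset.card_le_card (show (Finset.univ : Finset (Fin m)) ⊆ {i, a i, k} from
          fun x _ => hcon x)
        have h2 := Finset.card_le_three (a := i) (b := a i) (c := k)
        rw [Finset.card_univ, Fintype.card_fin] at this
        omega
      obtain ⟨l, hl⟩ := h2
      simp only [Finset.mem_insert, Finset.mem_singleton, not_or] at hk hl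
      exact ⟨k, l, hk.1, hk.2, hl.1, hl.2.1, hl.2.2⟩
    obtain ⟨k, l, h1, h2, h3, h4, h5⟩ := hex
    have hg : Equiv.swap (a i) k * Equiv.swap k l ∈ alternatingGroup (Fin m) := by
      rw [Equiv.Perm.mem_alternatingGroup, map_mul, Equiv.Perm.sign_swap h2.symm,
        Equiv.Perm.sign_swap h5.symm]
      rfl
    have h6 := congrArg (fun p : Equiv.Perm (Fin m) => p i) (hcomm _ hg)
    simp only [Equiv.Perm.mul_apply] at h6
    rw [Equiv.swap_apply_of_ne_of_ne h1.symm h3.symm,
      Equiv.swap_apply_of_ne_of_ne hi.symm h1.symm,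
      Equiv.swap_apply_of_ne_of_ne h2.symm h4.symm, Equiv.swap_apply_left] at h6
    exact h2 h6.symm
  · rwa [Subgroup.subgroupOf_eq_top] at ht

/-- no dihedral sections -/
theorem dihedral_case (n : ℕ) (hn : 5 ≤ n + 2) (X : Subgroup F3) (hX : X.Characteristic) (t : ℕ)
    (h : ¬ DihedralSection X t) (htm : t ∣ n + 2) :
    alternatingGroup (Fin (n + 2)) ≤ (Tr incl X).map (sg n) := by
  obtain ⟨w, k, hwX, hw1, hw2, hk⟩ := exists_w' X t h (n + 2) (by omega) htm
  obtain ⟨φ, hφ1, hφ2⟩ := sg_ew n w hw1 k hw2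
  have hTr := Tr_normal X hX
  have hφ : φ ∈ Tr incl X := by
    intro g
    rw [hφ1]
    have key : (QuotientGroup.mk' X).comp (eh w) = QuotientGroup.mk' X := by
      apply FreeGroup.ext_hom
      intro i
      fin_cases i
      · change QuotientGroup.mk' X (eh w X0) = QuotientGroup.mk' X X0
        rw [eh_0]
      · change QuotientGroup.mk' X (eh w X1) = QuotientGroup.mk' X X1
        rw [eh_1, map_mul]
        have : QuotientGroup.mk' X (io w) = 1 := (QuotientGroup.eq_one_iff _).2 hwX
        rw [this, mul_one]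
      · change QuotientGroup.mk' X (eh w X2) = QuotientGroup.mk' X X2
        rw [eh_2]
    have h1 := DFunLike.congr_fun key g
    change QuotientGroup.mk' X (ew w g) = QuotientGroup.mk' X g at h1
    rw [← mul_inv_eq_one, ← map_inv, ← map_mul] at h1
    exact (QuotientGroup.eq_one_iff _).1 h1
  apply alt_le hn _ (hTr.map _ (sg_surjective n))
  intro hbot
  have h1 : sg n φ ∈ (Tr incl X).map (sg n) := ⟨φ, hφ, rfl⟩
  rw [hbot, Subgroup.mem_bot, hφ2, ← orderOf_dvd_iff_zpow_eq_one,
    isCycle_finRotate.orderOf, support_finRotate, Finset.card_univ, Fintype.card_fin] at h1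
  exact hk h1

/-- intersections -/
theorem inter_case (n : ℕ) (hn : 5 ≤ n + 2) (X Y : Subgroup F3) (hX : X.Characteristic)
    (hY : Y.Characteristic) (h1 : alternatingGroup (Fin (n + 2)) ≤ (Tr incl X).map (sg n))
    (h2 : alternatingGroup (Fin (n + 2)) ≤ (Tr incl Y).map (sg n)) :
    alternatingGroup (Fin (n + 2)) ≤ (Tr incl (X ⊓ Y)).map (sg n) := by
  have hTX := Tr_normal X hX
  have hTY := Tr_normal Y hY
  have hp : commutator (alternatingGroup (Fin (n + 2))) = ⊤ :=
    commutator_alternatingGroup_eq_top (by simpa using hn)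
  have h3 : commutator (alternatingGroup (Fin (n + 2))) ≤
      ((Tr incl (X ⊓ Y)).map (sg n)).subgroupOf (alternatingGroup (Fin (n + 2))) := by
    rw [commutator_def, Subgroup.commutator_le]
    rintro ⟨a, ha⟩ _ ⟨b, hb⟩ _
    rw [Subgroup.mem_subgroupOf]
    obtain ⟨x, hx, rfl⟩ := h1 ha
    obtain ⟨y, hy, rfl⟩ := h2 hb
    refine ⟨⁅x, y⁆, ?_, ?_⟩
    · rw [Tr_inf]
      have := Subgroup.commutator_mem_commutator hx hy
      exact ⟨Subgroup.commutator_le_left _ _ this, Subgroup.commutator_le_right _ _ this⟩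
    · rw [map_commutatorElement]
      rfl
  rw [hp, top_le_iff, Subgroup.subgroupOf_eq_top] at h3
  exact h3

end Pool.Agent.W5h92.CS
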