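import Mathlib
import Pool.Agent.W5h92.CS.Dih

set_option autoImplicit false

/-! Assembly. -/

namespace Pool.Agent.W5h92.CS

open scoped commutatorElement

theorem gens_top : Subgroup.closure
    ((Finset.univ.image (FreeGroup.of : Fin 3 → F3) : Finset F3) : Set F3) = ⊤ := by
  rw [Finset.coe_image, Finset.coe_univ, Set.image_univ]
  exact FreeGroup.closure_range_of (Fin 3)

theorem gens_card : (Finset.univ.image (FreeGroup.of : Fin 3 → F3)).card = 3 := by
  rw [Finset.card_image_of_injective _ FreeGroup.of_injective, Finset.card_univ, Fintype.card_fin]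

theorem index_core {G : Type} [Group G] (L : Subgroup G) (h0 : L.index ≠ 0) :
    L.normalCore.index ≤ L.index.factorial := by
  have hf : L.FiniteIndex := ⟨h0⟩
  have hfin : Finite (G ⧸ L) := Subgroup.finite_quotient_of_finiteIndex
  rw [Subgroup.normalCore_eq_ker, Subgroup.index_ker]
  calc Nat.card (MulAction.toPermHom G (G ⧸ L)).range ≤ Nat.card (Equiv.Perm (G ⧸ L)) :=
        Subgroup.card_le_card_group _
    _ = L.index.factorial := by rw [Nat.card_perm, ← Subgroup.index_eq_card]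

theorem lcs_mono {G : Type} [Group G] {M N : Subgroup G} (h : M ≤ N) (c : ℕ) :
    M.lowerCentralSeries c ≤ N.lowerCentralSeries c := by
  induction c with
  | zero => exact h
  | succ c ih =>
    rw [Subgroup.lowerCentralSeries_succ, Subgroup.lowerCentralSeries_succ]
    exact Subgroup.commutator_mono ih h

theorem final (j : ℕ) : ∃ n : ℕ, 5 ≤ n + 2 ∧
    (∀ K : Subgroup F3, K.Normal → K.FiniteIndex →
      (∃ L : Subgroup F3, L.index ≠ 0 ∧ L.index ≤ j ∧ ∃ c, ⁅L, L⁆.lowerCentralSeries c ≤ K) →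
      alternatingGroup (Fin (n + 2)) ≤ (Tr incl K).map (sg n)) ∧
    (∀ K : Subgroup F3, K.Characteristic → (∃ t, 1 ≤ t ∧ t ≤ j ∧ ¬ DihedralSection K t) →
      alternatingGroup (Fin (n + 2)) ≤ (Tr incl K).map (sg n)) := by
  obtain ⟨m₁, hm₁⟩ := exists_good (j.factorial * 3)
  have hjf : 0 < j.factorial := Nat.factorial_pos j
  have hle : m₁ + (j.factorial ^ 3 + 3) ≤ (m₁ + (j.factorial ^ 3 + 3)) * j.factorial :=
    Nat.le_mul_of_pos_right _ hjf
  obtain ⟨n, hn⟩ : ∃ n, n + 2 = (m₁ + (j.factorial ^ 3 + 3)) * j.factorial := by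
    refine ⟨(m₁ + (j.factorial ^ 3 + 3)) * j.factorial - 2, ?_⟩
    omega
  have hgood : Good (j.factorial * 3) (n + 2) := hm₁.mono (by omega)
  refine ⟨n, hgood.five, ?_, ?_⟩
  · rintro K hK hKf ⟨L, hL0, hLj, c, hc⟩
    have hi := index_core L hL0
    have hf : L.FiniteIndex := ⟨hL0⟩
    have hcf : L.normalCore.FiniteIndex := inferInstance
    refine main_abs (Finset.univ.image (FreeGroup.of : Fin 3 → F3)) gens_top incl (sg n)
      (sg_surjective n) j.factorial ?_ ?_ K L.normalCore hK inferInstance hKf hcf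
      (hi.trans (Nat.factorial_le hLj)) c ?_
    · rw [gens_card]; exact hgood
    · rw [gens_card]; omega
    · refine (lcs_mono ?_ c).trans hc
      exact Subgroup.commutator_mono (Subgroup.normalCore_le L) (Subgroup.normalCore_le L)
  · rintro K hK ⟨t, ht1, htj, ht⟩
    refine dihedral_case n hgood.five K hK t ht ?_
    rw [hn]
    exact Dvd.dvd.mul_left (Nat.dvd_factorial ht1 htj) _

/-- finite intersections -/
theorem inter_all (n : ℕ) (hn : 5 ≤ n + 2) (s : Finset (Subgroup F3))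
    (hs : ∀ X ∈ s, X.Characteristic ∧ alternatingGroup (Fin (n + 2)) ≤ (Tr incl X).map (sg n)) :
    (s.inf id).Characteristic ∧
      alternatingGroup (Fin (n + 2)) ≤ (Tr incl (s.inf id)).map (sg n) := by
  classical
  induction s using Finset.induction_on with
  | empty =>
    rw [Finset.inf_empty]
    refine ⟨inferInstance, ?_⟩
    have h1 : Tr incl (⊤ : Subgroup F3) = ⊤ := by
      rw [eq_top_iff]
      intro φ _ l
      trivial
    rw [h1, ← MonoidHom.range_eq_map, MonoidHom.range_eq_top.2 (sg_surjective n)]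
    exact le_top
  | insert X s _ ih =>
    obtain ⟨h1, h2⟩ := ih (fun Y hY => hs Y (Finset.mem_insert_of_mem hY))
    obtain ⟨h3, h4⟩ := hs X (Finset.mem_insert_self X s)
    rw [Finset.inf_insert]
    refine ⟨?_, inter_case n hn X (s.inf id) h3 h1 h4 h2⟩
    rw [Subgroup.characteristic_iff_comap_eq]
    intro φ
    rw [Subgroup.comap_inf, Subgroup.characteristic_iff_comap_eq.1 h1 φ]
    congr 1
    exact Subgroup.characteristic_iff_comap_eq.1 h3 φ

/-- an element outside of the kernel -/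
theorem exists_out (n : ℕ) (hn : 5 ≤ n + 2) (K : Subgroup F3)
    (h : alternatingGroup (Fin (n + 2)) ≤ (Tr incl K).map (sg n)) :
    ∃ φ : MulAut F3, φ ∉ HH n ∧ ∀ x, φ x * x⁻¹ ∈ K := by
  have hnt : Nontrivial (alternatingGroup (Fin (n + 2))) :=
    alternatingGroup.nontrivial_of_three_le_card (by simp; omega)
  obtain ⟨⟨a, ha⟩, ha1⟩ := exists_ne (1 : alternatingGroup (Fin (n + 2)))
  obtain ⟨φ, hφ, hφa⟩ := h ha
  refine ⟨incl φ, ?_, fun x => hφ x⟩
  rintro ⟨ψ, hψ, hψφ⟩
  have h1 : ψ = φ := incl_injective hψφ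
  subst h1
  have h2 : sg n ψ = 1 := hψ
  apply ha1
  apply Subtype.ext
  change a = 1
  rw [← hφa, h2]

theorem Sq_map (θ : MulAut F3) (s : F3) (hs : s ∈ Sq) : θ s ∈ Sq := by
  have h : Sq ≤ Sq.comap θ.toMonoidHom := by
    conv_lhs => unfold Sq
    rw [Subgroup.closure_le]
    rintro _ ⟨x, rfl⟩
    change θ (x ^ 2) ∈ Sq
    rw [map_pow]
    exact Subgroup.subset_closure ⟨θ x, rfl⟩
  exact h hs

theorem Sq_comm_map (θ : MulAut F3) (s : F3) (hs : s ∈ ⁅Sq, Sq⁆) : θ s ∈ ⁅Sq, Sq⁆ := by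
  have h : ⁅Sq, Sq⁆ ≤ (⁅Sq, Sq⁆ : Subgroup F3).comap θ.toMonoidHom := by
    rw [Subgroup.commutator_le]
    intro a ha b hb
    change θ ⁅a, b⁆ ∈ ⁅Sq, Sq⁆
    rw [map_commutatorElement]
    exact Subgroup.commutator_mem_commutator (Sq_map θ a ha) (Sq_map θ b hb)
  exact h hs

/-- the inner automorphisms modulo `[F², F²]` are in the normal core -/
theorem inner_mem_core (n : ℕ) (φ : MulAut F3) (g : F3)
    (h : ∀ x, φ x * (g * x * g⁻¹)⁻¹ ∈ ⁅Sq, Sq⁆) : φ ∈ (HH n).normalCore := by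
  intro θ
  apply inner_mem n _ (θ g)
  intro x
  have h1 := Sq_comm_map θ _ (h (θ⁻¹ x))
  rw [map_mul, map_inv, map_mul, map_mul, map_inv, MulAut.apply_inv_self] at h1
  exact h1

theorem not_mem_core (n : ℕ) (φ : MulAut F3) (h : φ ∉ HH n) : φ ∉ (HH n).normalCore :=
  fun h1 => h (Subgroup.normalCore_le _ h1)

end Pool.Agent.W5h92.CS
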